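import Pool.Agent.W_448mp_h83.MpA

/-!
MP_448cb3_co, G2, case B: a closed path of alternating defects in one level has three vertices.
-/

namespace Pool.Agent.GaussPoset.Mp

set_option linter.unusedSectionVars false

open Finset Win St Polynomial

universe u

variable {P : Type u} [Fintype P] [PartialOrder P] [DecidableEq P] {r i n : ℕ}
  {v : ℕ → P} {e : ℕ → ℤ}

/-- a path of defects in a level without other defects -/
structure PathD (P : Type u) [Fintype P] [PartialOrder P] [DecidableEq P] (i n : ℕ) (v : ℕ → P)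
    (e : ℕ → ℤ) : Prop where
  lev_v : ∀ a, a ≤ n → lev (v a) = i
  inj : ∀ a b, a ≤ n → b ≤ n → v a = v b → a = b
  adj : ∀ a, a < n → Df i {v a, v (a + 1)} = e a
  far : ∀ a b, a + 2 ≤ b → b ≤ n → Df i {v a, v b} = 0
  out : ∀ a, a ≤ n → ∀ w, lev w = i → (∀ b, b ≤ n → w ≠ v b) → Df i {v a, w} = 0

/-- the vertices of the path -/
def PV (n : ℕ) (v : ℕ → P) : Finset P := (range (n + 1)).image v

lemma mem_PV {w : P} : w ∈ PV n v ↔ ∃ a, a ≤ n ∧ v a = w := by
  unfold PV
  rw [mem_image]
  constructor
  · rintro ⟨a, ha, h⟩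
    exact ⟨a, by rw [mem_range] at ha; omega, h⟩
  · rintro ⟨a, ha, h⟩
    exact ⟨a, mem_range.2 (by omega), h⟩

lemma PathD.pce (h : PathD P i n v e) : Pce P i (PV n v) where
  sub := by
    intro w hw
    obtain ⟨a, ha, rfl⟩ := mem_PV.1 hw
    exact mem_lv.2 (h.lev_v a ha)
  zero := by
    intro u hu w hw hn
    obtain ⟨a, ha, rfl⟩ := mem_PV.1 hu
    exact h.out a ha w hw fun b hb hwb => hn (mem_PV.2 ⟨b, hb, hwb.symm⟩)

lemma PathD.sum_PV (h : PathD P i n v e) (f : P → ℤ) :
    ∑ w ∈ PV n v, f w = ∑ a ∈ range (n + 1), f (v a) := by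
  unfold PV
  rw [sum_image]
  intro a ha b hb hab
  rw [mem_coe, mem_range] at ha hb
  exact h.inj a b (by omega) (by omega) hab

/-- the row sum at a vertex of the path -/
lemma PathD.row (h : PathD P i n v e) (g : Finset P → ℤ)
    (hg : ∀ a b, a + 2 ≤ b → b ≤ n → g {v a, v b} = 0) {a : ℕ} (ha : a ≤ n) :
    ∑ w ∈ (PV n v).erase (v a), g {v a, w} =
      (if 1 ≤ a then g {v (a - 1), v a} else 0) + (if a < n then g {v a, v (a + 1)} else 0) := by
  have h1 : ∑ w ∈ (PV n v).erase (v a), g {v a, w} =
      ∑ b ∈ (range (n + 1)).erase a, g {v a, v b} := by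
    have e1 := sum_erase_add (PV n v) (fun w => g {v a, w}) (mem_PV.2 ⟨a, ha, rfl⟩)
    have e2 := sum_erase_add (range (n + 1)) (fun b => g {v a, v b})
      (mem_range.2 (show a < n + 1 by omega))
    have e3 := h.sum_PV (fun w => g {v a, w})
    beta_reduce at e1 e2 e3
    linarith
  have h2 : ∀ b ∈ (range (n + 1)).erase a, g {v a, v b} =
      (if b + 1 = a then g {v (a - 1), v a} else 0) +
        (if b = a + 1 then g {v a, v (a + 1)} else 0) := by
    intro b hb
    rw [mem_erase, mem_range] at hb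
    by_cases c1 : b + 1 = a
    · rw [if_pos c1, if_neg (by omega), add_zero, show a - 1 = b by omega, pair_comm]
    · by_cases c2 : b = a + 1
      · rw [if_neg c1, if_pos c2, c2, zero_add]
      · rw [if_neg c1, if_neg c2, add_zero]
        rcases Nat.lt_or_gt_of_ne hb.1 with h3 | h3
        · rw [pair_comm]
          exact hg b a (by omega) ha
        · exact hg a b (by omega) (by omega)
  rw [h1, sum_congr rfl h2]
  have h3 := sum_erase_add (range (n + 1)) (fun b => (if b + 1 = a then g {v (a - 1), v a} else 0) +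
        (if b = a + 1 then g {v a, v (a + 1)} else 0)) (mem_range.2 (show a < n + 1 by omega))
  beta_reduce at h3
  rw [if_neg (by omega), if_neg (by omega), add_zero, add_zero] at h3
  rw [h3, sum_add_distrib]
  congr 1
  · rcases a with _ | a
    · simp
    · have : ∀ b ∈ range (n + 1), (if b + 1 = a + 1 then g {v (a + 1 - 1), v (a + 1)} else 0) =
          if b = a then g {v (a + 1 - 1), v (a + 1)} else 0 := by
        intro b _
        simp only [Nat.add_right_cancel_iff]
      rw [sum_congr rfl this, sum_ite_eq', if_pos (mem_range.2 (by omega)), if_pos (by omega)]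
  · rw [sum_ite_eq']
    simp only [mem_range, Nat.add_lt_add_iff_right]

lemma sum_ends {n : ℕ} (hn : 1 ≤ n) (f : ℕ → ℤ) (h : ∀ a, 0 < a → a < n → f a = 0) :
    ∑ a ∈ range (n + 1), f a = f 0 + f n := by
  obtain ⟨k, rfl⟩ : ∃ k, n = k + 1 := ⟨n - 1, by omega⟩
  rw [sum_range_succ, sum_range_succ', sum_eq_zero]
  · ring
  · intro a ha
    rw [mem_range] at ha
    exact h (a + 1) (by omega) (by omega)

/-- a closed alternating path has three vertices -/
theorem PathD.alt (H : Gr P r) (hi : i ≤ r) (h : PathD P i n v e) (hn : 1 ≤ n)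
    (he : ∀ a, a < n → e a = if a % 2 = 0 then -1 else 1) : n = 2 := by
  have hl := piece_lin H hi h.pce
  have hq := piece_quad H hi h.pce
  rw [h.sum_PV] at hl hq
  rw [h.sum_PV] at hq
  set S : ℕ → ℤ := fun a => ∑ w ∈ (PV n v).erase (v a), Df i {v a, w} with hS
  have hSv : ∀ a, a ≤ n → S a = (if 1 ≤ a then e (a - 1) else 0) + (if a < n then e a else 0) := by
    intro a ha
    rw [hS]
    simp only
    rw [h.row (fun s => Df i s) h.far ha]
    congr 1
    · split_ifs with c
      · have := h.adj (a - 1) (by omega)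
        rwa [show a - 1 + 1 = a by omega] at this
      · rfl
    · split_ifs with c
      · exact h.adj a c
      · rfl
  have hmid : ∀ a, 0 < a → a < n → S a = 0 := by
    intro a h1 h2
    rw [hSv a h2.le, if_pos (by omega), if_pos h2, he (a - 1) (by omega), he a h2]
    rcases Nat.mod_two_eq_zero_or_one a with h3 | h3
    · rw [if_neg (by omega), if_pos h3]; norm_num
    · rw [if_pos (by omega), if_neg (by omega)]; norm_num
  have h0 : S 0 = -1 := by
    rw [hSv 0 (by omega), if_neg (by omega), if_pos (by omega), he 0 (by omega)]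
    norm_num
  have hnv : S n = e (n - 1) := by
    rw [hSv n le_rfl, if_pos hn, if_neg (by omega), add_zero]
  have hl' : ∑ a ∈ range (n + 1), S a = 0 := hl
  rw [sum_ends hn S hmid, h0, hnv] at hl'
  have hq' : 2 * ∑ a ∈ range (n + 1), (S a) ^ 2 =
      ∑ a ∈ range (n + 1), ∑ w ∈ (PV n v).erase (v a), Df i {v a, w} ^ 2 := hq
  rw [sum_ends hn (fun a => (S a) ^ 2) (fun a h1 h2 => by rw [hmid a h1 h2]; norm_num)] at hq'
  rw [h0, hnv, show e (n - 1) = 1 by linarith] at hq'
  have hsq : ∀ a, a < n → Df i {v a, v (a + 1)} ^ 2 = 1 := by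
    intro a ha
    rw [h.adj a ha, he a ha]
    split_ifs <;> norm_num
  have hr : ∀ a ∈ range (n + 1), ∑ w ∈ (PV n v).erase (v a), Df i {v a, w} ^ 2 =
      (if 1 ≤ a then 1 else 0) + (if a < n then 1 else 0) := by
    intro a ha
    rw [mem_range] at ha
    rw [h.row (fun s => Df i s ^ 2) (fun a b h1 h2 => by rw [h.far a b h1 h2]; norm_num)
      (show a ≤ n by omega)]
    congr 1
    · split_ifs with c
      · have := hsq (a - 1) (by omega)
        rwa [show a - 1 + 1 = a by omega] at this
      · rfl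
    · split_ifs with c
      · exact hsq a c
      · rfl
  rw [sum_congr rfl hr, sum_add_distrib] at hq'
  have e1 : ∑ a ∈ range (n + 1), (if 1 ≤ a then (1 : ℤ) else 0) = n := by
    rw [sum_range_succ']
    simp
  have e2 : ∑ a ∈ range (n + 1), (if a < n then (1 : ℤ) else 0) = n := by
    rw [sum_range_succ, if_neg (lt_irrefl n), add_zero]
    rw [sum_congr rfl (fun a ha => if_pos (mem_range.1 ha))]
    simp
  rw [e1, e2] at hq'
  have : (n : ℤ) = 2 := by linarith
  exact_mod_cast this

end Pool.Agent.GaussPoset.Mp
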