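import Pool.Agent.W_448ce_h84.CeA
import Pool.Agent.W_448kf_h15.KfG

/-!
MP_448cb3_co, G2, case B: a chain of neighbours in one level whose members have no private children:
the numbers of common children are `0, 2, 0, 2, …`.
-/

namespace Pool.Agent.GaussPoset.Mp

set_option linter.unusedSectionVars false

open Finset Win St

universe u

variable {P : Type u} [Fintype P] [PartialOrder P] [DecidableEq P] {r i n : ℕ}
  {v : ℕ → P}

lemma dcv_inter (y y' : P) : dcv y y' = (dc y ∩ dc y').card := by
  classical
  unfold dcv
  congr 1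
  ext z
  simp only [mem_filter, mem_univ, true_and, mem_inter, mem_dc]

lemma ucv_inter (y y' : P) : ucv y y' = (uc y ∩ uc y').card := by
  classical
  unfold ucv
  congr 1
  ext z
  simp only [mem_filter, mem_univ, true_and, mem_inter, mem_uc]

/-- a chain of neighbours; the last member may have other neighbours -/
structure Chn (P : Type u) [Fintype P] [PartialOrder P] [DecidableEq P] (i n : ℕ) (v : ℕ → P) :
    Prop where
  lev_v : ∀ a, a ≤ n → lev (v a) = i
  inj : ∀ a b, a ≤ n → b ≤ n → v a = v b → a = b
  adj : ∀ a, a < n → ucv (v a) (v (a + 1)) = 1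
  far : ∀ a b, a + 2 ≤ b → b ≤ n → ucv (v a) (v b) = 0 ∧ dcv (v a) (v b) = 0
  out : ∀ a, a < n → ∀ w, lev w = i → (∀ b, b ≤ n → w ≠ v b) → ucv (v a) w = 0 ∧ dcv (v a) w = 0

/-- a common child of two members has no third cover -/
lemma two_covers (H : Gr P r) {z a b c : P} (h1 : z ∈ dc a) (h2 : z ∈ dc b) (h3 : z ∈ dc c)
    (hab : a ≠ b) (hac : a ≠ c) : b = c := by
  have e1 := StB_uc_pair H (mem_dc.1 h1) (mem_dc.1 h2) hab
  have e2 : c ∈ uc z := mem_uc.2 (mem_dc.1 h3)
  rw [e1, mem_insert, mem_singleton] at e2
  rcases e2 with h | h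
  · exact absurd h.symm hac
  · exact h.symm

lemma dc_le2 (H : Gr P r) (y : P) : (dc y).card ≤ 2 := dc_card_le H y

/-- the common children of `y` with two different neighbours -/
lemma com_add (H : Gr P r) {y a b : P} (ha : a ≠ y) (hb : b ≠ y) (hab : a ≠ b) :
    dcv a y + dcv y b + (pen y).card ≤ (dc y).card := by
  classical
  rw [dcv_inter, dcv_inter]
  have d1 : Disjoint (dc a ∩ dc y) (dc y ∩ dc b) := by
    rw [disjoint_left]
    intro z h1 h2
    rw [mem_inter] at h1 h2
    exact hab (two_covers H h1.2 h1.1 h2.2 ha.symm hb.symm)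
  have d2 : Disjoint (dc a ∩ dc y ∪ dc y ∩ dc b) (pen y) := by
    rw [disjoint_left]
    intro z h1 h2
    have h3 := (mem_pen.1 h2).2
    rw [mem_union, mem_inter, mem_inter] at h1
    rcases h1 with h1 | h1
    · have := StB_uc_pair H (mem_dc.1 h1.1) (mem_dc.1 h1.2) ha
      rw [this, card_pair ha] at h3
      omega
    · have := StB_uc_pair H (mem_dc.1 h1.1) (mem_dc.1 h1.2) hb.symm
      rw [this, card_pair hb.symm] at h3
      omega
  rw [← card_union_of_disjoint d1, ← card_union_of_disjoint d2]
  apply card_le_card
  intro z hz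
  rw [mem_union, mem_union, mem_inter, mem_inter] at hz
  rcases hz with (h | h) | h
  · exact h.2
  · exact h.1
  · exact mem_dc.2 (mem_pen.1 h).1

lemma com_one (H : Gr P r) {y a : P} (ha : a ≠ y) :
    dcv a y + (pen y).card ≤ (dc y).card := by
  classical
  rw [dcv_inter]
  have d2 : Disjoint (dc a ∩ dc y) (pen y) := by
    rw [disjoint_left]
    intro z h1 h2
    have h3 := (mem_pen.1 h2).2
    rw [mem_inter] at h1
    have := StB_uc_pair H (mem_dc.1 h1.1) (mem_dc.1 h1.2) ha
    rw [this, card_pair ha] at h3
    omega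
  rw [← card_union_of_disjoint d2]
  apply card_le_card
  intro z hz
  rw [mem_union, mem_inter] at hz
  rcases hz with h | h
  · exact h.2
  · exact mem_dc.2 (mem_pen.1 h).1

namespace Chn

variable (h : Chn P i n v)
include h

lemma ne {a b : ℕ} (ha : a ≤ n) (hb : b ≤ n) (hab : a ≠ b) : v a ≠ v b :=
  fun h1 => hab (h.inj a b ha hb h1)

/-- the children of an inner member -/
lemma kids (H : Gr P r) {s : ℕ} (hs : s < n) {z : P} (hz : z ∈ dc (v s)) :
    z ∈ pen (v s) ∨ (1 ≤ s ∧ z ∈ dc (v (s - 1))) ∨ z ∈ dc (v (s + 1)) := by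
  classical
  have hz' := mem_dc.1 hz
  have hl := lev_cov H hz'
  rcases uc_card_cases H (x := z) (by omega) with h1 | h1
  · exact Or.inl (mem_pen.2 ⟨hz', h1⟩)
  · right
    obtain ⟨w, hw, hne⟩ := exists_other_uc (y := v s) h1
    have hlw := lev_cov H hw
    have hd : dcv (v s) w ≠ 0 := by
      rw [dcv_inter, Finset.card_ne_zero]
      exact ⟨z, mem_inter.2 ⟨hz, mem_dc.2 hw⟩⟩
    have hlv := h.lev_v s hs.le
    by_cases hb : ∀ b, b ≤ n → w ≠ v b
    · exact absurd (h.out s hs w (by omega) hb).2 hd
    · push Not at hb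
      obtain ⟨b, hb, rfl⟩ := hb
      have hsb : s ≠ b := fun h1 => hne (by rw [h1])
      rcases Nat.lt_or_gt_of_ne hsb with h2 | h2
      · rcases Nat.lt_or_ge b (s + 2) with h3 | h3
        · right
          have : b = s + 1 := by omega
          rw [this] at hw
          exact mem_dc.2 hw
        · exact absurd (h.far s b h3 hb).2 hd
      · rcases Nat.lt_or_ge s (b + 2) with h3 | h3
        · left
          have : s - 1 = b := by omega
          rw [this]
          exact ⟨by omega, mem_dc.2 hw⟩
        · have := (h.far b s h3 hs.le).2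
          rw [dcv_inter, inter_comm, ← dcv_inter] at this
          exact absurd this hd

/-- defects of neighbours -/
lemma df_adj (H : Gr P r) {a : ℕ} (ha : a < n) :
    Df i {v a, v (a + 1)} = (dcv (v a) (v (a + 1)) : ℤ) - 1 := by
  rw [Df_val H (h.lev_v a ha.le) (h.ne ha.le (by omega) (by omega)), h.adj a ha]
  norm_num

/-- the initial part of the chain is a path of defects if its last member has no defect with the next
one -/
lemma path (H : Gr P r) {q : ℕ} (hq : q ≤ n) (hlast : q < n → dcv (v q) (v (q + 1)) = 1)
    (hout : q = n → ∀ w, lev w = i → (∀ b, b ≤ n → w ≠ v b) → Df i {v n, w} = 0) :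
    PathD P i q v (fun a => (dcv (v a) (v (a + 1)) : ℤ) - 1) where
  lev_v a ha := h.lev_v a (by omega)
  inj a b ha hb := h.inj a b (by omega) (by omega)
  adj a ha := h.df_adj H (by omega)
  far a b hab hb := by
    rw [Df_val H (h.lev_v a (by omega)) (h.ne (by omega) (by omega) (by omega)),
      (h.far a b hab (by omega)).1, (h.far a b hab (by omega)).2]
    norm_num
  out a ha w hw hb := by
    have hwa : v a ≠ w := fun h1 => hb a ha h1.symm
    by_cases hb' : ∀ b, b ≤ n → w ≠ v b
    · rcases Nat.lt_or_ge a n with h1 | h1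
      · rw [Df_val H (h.lev_v a (by omega)) hwa, (h.out a h1 w hw hb').1, (h.out a h1 w hw hb').2]
        norm_num
      · have h2 : a = n := by omega
        rw [h2]
        exact hout (by omega) w hw hb'
    · push Not at hb'
      obtain ⟨b, hbn, rfl⟩ := hb'
      have hqb : q < b := by
        by_contra hc
        exact hb b (by omega) rfl
      rcases Nat.lt_or_ge b (a + 2) with h3 | h3
      · have e1 : a = q := by omega
        have e2 : b = q + 1 := by omega
        rw [e1, e2, h.df_adj H (by omega), hlast (by omega)]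
        norm_num
      · rw [Df_val H (h.lev_v a (by omega)) hwa, (h.far a b h3 hbn).1, (h.far a b h3 hbn).2]
        norm_num

/-- the alternating numbers of common children -/
theorem alt (H : Gr P r) (hir : i < r) (h0 : dcv (v 0) (v 1) = 0) {q : ℕ} (hq : q ≤ n)
    (hp : ∀ s, 1 ≤ s → s < q → pen (v s) = ∅) :
    ∀ s, s < q → dcv (v s) (v (s + 1)) = if s % 2 = 0 then 0 else 2 := by
  intro s
  induction s using Nat.strong_induction_on with
  | _ s ih =>
    intro hs
    rcases Nat.eq_zero_or_pos s with h1 | h1
    · subst h1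
      rw [h0]
      simp
    · have hprev := ih (s - 1) (by omega) (by omega)
      rw [show s - 1 + 1 = s by omega] at hprev
      have hn1 : v (s - 1) ≠ v s := h.ne (by omega) (by omega) (by omega)
      have hn2 : v (s + 1) ≠ v s := h.ne (by omega) (by omega) (by omega)
      have hn3 : v (s - 1) ≠ v (s + 1) := h.ne (by omega) (by omega) (by omega)
      have hsum := com_add H hn1 hn2 hn3
      have hle := dc_le2 H (v s)
      rcases Nat.mod_two_eq_zero_or_one s with h2 | h2
      · rw [if_pos h2]
        rw [if_neg (by omega)] at hprev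
        omega
      · rw [if_neg (by omega)]
        rw [if_pos (by omega)] at hprev
        have hle2 : dcv (v s) (v (s + 1)) ≤ 2 := by omega
        -- not zero
        have hz : dcv (v s) (v (s + 1)) ≠ 0 := by
          intro hc
          obtain ⟨z, hz⟩ := dc_nonempty H (x := v s) (by rw [h.lev_v s (by omega)]; exact hir)
          rcases h.kids H (s := s) (by omega) hz with h3 | ⟨-, h3⟩ | h3
          · rw [hp s h1 hs] at h3
            exact absurd h3 (notMem_empty z)
          · rw [dcv_inter, card_eq_zero] at hprev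
            have : z ∈ dc (v (s - 1)) ∩ dc (v s) := mem_inter.2 ⟨h3, hz⟩
            rw [hprev] at this
            exact absurd this (notMem_empty z)
          · rw [dcv_inter, card_eq_zero] at hc
            have : z ∈ dc (v s) ∩ dc (v (s + 1)) := mem_inter.2 ⟨hz, h3⟩
            rw [hc] at this
            exact absurd this (notMem_empty z)
        -- not one
        have ho : dcv (v s) (v (s + 1)) ≠ 1 := by
          intro hc
          have hP := h.path H (q := s) (by omega) (fun _ => hc) (fun h3 => by omega)
          have := hP.alt H (by omega) h1 (fun a ha => by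
            rw [ih a ha (by omega)]
            split_ifs <;> norm_num)
          omega
        omega

/-- a closed alternating initial part -/
theorem alt_two (H : Gr P r) (hir : i < r) {q : ℕ} (hq : q ≤ n) (h1 : 1 ≤ q)
    (hlast : q < n → dcv (v q) (v (q + 1)) = 1)
    (hout : q = n → ∀ w, lev w = i → (∀ b, b ≤ n → w ≠ v b) → Df i {v n, w} = 0)
    (ha : ∀ s, s < q → dcv (v s) (v (s + 1)) = if s % 2 = 0 then 0 else 2) : q = 2 := by
  have hP := h.path H (q := q) hq hlast hout
  refine hP.alt H (by omega) h1 (fun a haq => ?_)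
  rw [ha a haq]
  split_ifs <;> norm_num

/-- the end of a chain whose last member is a closed member: the chain has three members -/
theorem end_closed (H : Gr P r) (hir : i < r) (hn : 1 ≤ n) (h0 : dcv (v 0) (v 1) = 0)
    (hp : ∀ s, 1 ≤ s → s + 2 ≤ n → pen (v s) = ∅)
    (hout : ∀ w, lev w = i → (∀ b, b ≤ n → w ≠ v b) → ucv (v n) w = 0 ∧ dcv (v n) w = 0)
    (hpp : 2 ≤ n → (pen (v (n - 1))).card + (pen (v n)).card ≤ 1)
    (hp1 : n = 1 → (pen (v n)).card ≤ 1) :
    n = 2 ∧ dcv (v 1) (v 2) = 2 := by
  have hout' : ∀ w, lev w = i → (∀ b, b ≤ n → w ≠ v b) → Df i {v n, w} = 0 := by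
    intro w hw hb
    rw [Df_val H (h.lev_v n le_rfl) (fun h1 => hb n le_rfl h1.symm), (hout w hw hb).1,
      (hout w hw hb).2]
    norm_num
  rcases Nat.lt_or_ge n 2 with h2 | h2
  · exfalso
    have h3 : n = 1 := by omega
    subst h3
    have := h.alt_two H hir (q := 1) le_rfl le_rfl (fun h4 => by omega) (fun _ => hout')
      (fun s hs => by
        have : s = 0 := by omega
        subst this
        rw [h0]
        simp)
    omega
  · have hA := h.alt H hir h0 (q := n - 1) (by omega) (fun s h3 h4 => hp s h3 (by omega))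
    have hn1 : v (n - 1) ≠ v n := h.ne (by omega) (by omega) (by omega)
    have hle := dc_le2 H (v n)
    have hle' := dc_le2 H (v (n - 1))
    have hc := com_one H hn1
    -- the children of the last member
    have hkn : ∀ z ∈ dc (v n), z ∈ pen (v n) ∨ z ∈ dc (v (n - 1)) := by
      intro z hz
      have hz' := mem_dc.1 hz
      have hl := lev_cov H hz'
      rcases uc_card_cases H (x := z) (by omega) with h1 | h1
      · exact Or.inl (mem_pen.2 ⟨hz', h1⟩)
      · right
        obtain ⟨w, hw, hne⟩ := exists_other_uc (y := v n) h1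
        have hlw := lev_cov H hw
        have hd : dcv (v n) w ≠ 0 := by
          rw [dcv_inter, Finset.card_ne_zero]
          exact ⟨z, mem_inter.2 ⟨hz, mem_dc.2 hw⟩⟩
        have hlv := h.lev_v n le_rfl
        by_cases hb : ∀ b, b ≤ n → w ≠ v b
        · exact absurd (hout w (by omega) hb).2 hd
        · push Not at hb
          obtain ⟨b, hb, rfl⟩ := hb
          have hsb : n ≠ b := fun h1 => hne (by rw [h1])
          rcases Nat.lt_or_ge n (b + 2) with h3 | h3
          · have : n - 1 = b := by omega
            rw [this]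
            exact mem_dc.2 hw
          · have := (h.far b n h3 le_rfl).2
            rw [dcv_inter, inter_comm, ← dcv_inter] at this
            exact absurd this hd
    have hkn1 : ∀ z ∈ dc (v (n - 1)), z ∈ pen (v (n - 1)) ∨
        (1 ≤ n - 1 ∧ z ∈ dc (v (n - 1 - 1))) ∨ z ∈ dc (v n) := by
      intro z hz
      have := h.kids H (s := n - 1) (by omega) hz
      rwa [show n - 1 + 1 = n by omega] at this
    have hA1 := hA (n - 2) (by omega)
    rw [show n - 2 + 1 = n - 1 by omega] at hA1
    have hne2 : v (n - 2) ≠ v (n - 1) := h.ne (by omega) (by omega) (by omega)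
    have hne3 : v (n - 2) ≠ v n := h.ne (by omega) (by omega) (by omega)
    have hsum := com_add H hne2 hn1.symm hne3
    have hall : ∀ t : ℕ, dcv (v (n - 1)) (v n) = (if (n - 1) % 2 = 0 then 0 else 2) →
        ∀ s, s < n → dcv (v s) (v (s + 1)) = if s % 2 = 0 then 0 else 2 := by
      intro _ ht s hs
      rcases Nat.lt_or_ge s (n - 1) with h3 | h3
      · exact hA s h3
      · have : s = n - 1 := by omega
        subst this
        rw [show n - 1 + 1 = n by omega]
        exact ht
    rcases Nat.mod_two_eq_zero_or_one n with h3 | h3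
    · rw [if_pos (by omega)] at hA1
      have hcase : dcv (v (n - 1)) (v n) = 0 ∨ dcv (v (n - 1)) (v n) = 1 ∨
          dcv (v (n - 1)) (v n) = 2 := by omega
      rcases hcase with h4 | h4 | h4
      · exfalso
        have e1 : 1 ≤ (pen (v n)).card := by
          obtain ⟨z, hz⟩ := dc_nonempty H (x := v n) (by rw [h.lev_v n le_rfl]; exact hir)
          rcases hkn z hz with h5 | h5
          · exact card_pos.2 ⟨z, h5⟩
          · rw [dcv_inter, card_eq_zero] at h4
            have : z ∈ dc (v (n - 1)) ∩ dc (v n) := mem_inter.2 ⟨h5, hz⟩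
            rw [h4] at this
            exact absurd this (notMem_empty z)
        have e2 : 1 ≤ (pen (v (n - 1))).card := by
          obtain ⟨z, hz⟩ := dc_nonempty H (x := v (n - 1))
            (by rw [h.lev_v (n - 1) (by omega)]; exact hir)
          rcases hkn1 z hz with h5 | ⟨-, h5⟩ | h5
          · exact card_pos.2 ⟨z, h5⟩
          · rw [dcv_inter, card_eq_zero] at hA1
            have : z ∈ dc (v (n - 2)) ∩ dc (v (n - 1)) :=
              mem_inter.2 ⟨by rwa [show n - 1 - 1 = n - 2 by omega] at h5, hz⟩
            rw [hA1] at this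
            exact absurd this (notMem_empty z)
          · rw [dcv_inter, card_eq_zero] at h4
            have : z ∈ dc (v (n - 1)) ∩ dc (v n) := mem_inter.2 ⟨hz, h5⟩
            rw [h4] at this
            exact absurd this (notMem_empty z)
        have := hpp h2
        omega
      · exfalso
        have := h.alt_two H hir (q := n - 1) (by omega) (by omega)
          (fun _ => by rw [show n - 1 + 1 = n by omega]; exact h4) (fun h5 => by omega)
          (fun s hs => hA s hs)
        omega
      · have h5 := h.alt_two H hir (q := n) le_rfl hn (fun h6 => by omega) (fun _ => hout')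
          (hall 0 (by rw [if_neg (by omega)]; exact h4))
        subst h5
        exact ⟨rfl, h4⟩
    · exfalso
      rw [if_neg (by omega)] at hA1
      have h4 : dcv (v (n - 1)) (v n) = 0 := by omega
      have h5 := h.alt_two H hir (q := n) le_rfl hn (fun h6 => by omega) (fun _ => hout')
        (hall 0 (by rw [if_pos (by omega)]; exact h4))
      omega

/-- a chain without private children before its last member -/
theorem end_open (H : Gr P r) (hir : i < r) (hn : 1 ≤ n) (h0 : dcv (v 0) (v 1) = 0)
    (hp : ∀ s, 1 ≤ s → s < n → pen (v s) = ∅)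
    (hu : ∀ w, lev w = i → (∀ b, b ≤ n → w ≠ v b) → ucv (v n) w = 0) :
    (∀ s, s < n → dcv (v s) (v (s + 1)) = if s % 2 = 0 then 0 else 2) ∧
      (n % 2 = 0 → n = 2) := by
  have hA := h.alt H hir h0 (q := n) le_rfl hp
  refine ⟨hA, fun hn2 => ?_⟩
  have h1 := hA (n - 1) (by omega)
  rw [show n - 1 + 1 = n by omega, if_neg (by omega)] at h1
  refine h.alt_two H hir (q := n) le_rfl hn (fun h6 => by omega) (fun _ => ?_) hA
  intro w hw hb
  have hn1 : v (n - 1) ≠ v n := h.ne (by omega) (by omega) (by omega)
  have hle := dc_le2 H (v n)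
  rw [dcv_inter] at h1
  have hsub : dc (v n) ⊆ dc (v (n - 1)) := by
    have : dc (v (n - 1)) ∩ dc (v n) = dc (v n) :=
      eq_of_subset_of_card_le inter_subset_right (by omega)
    rw [← this]
    exact inter_subset_left
  have hwn : v n ≠ w := fun h1 => hb n le_rfl h1.symm
  have e1 : dcv (v n) w = 0 := by
    rw [dcv_inter, card_eq_zero]
    by_contra hc
    obtain ⟨z, hz⟩ := nonempty_iff_ne_empty.2 hc
    rw [mem_inter] at hz
    have := two_covers H hz.1 (hsub hz.1) hz.2 hn1.symm hwn
    exact hb (n - 1) (by omega) this.symm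
  have e2 := hu w hw hb
  rw [Df_val H (h.lev_v n le_rfl) hwn, e1, e2]
  norm_num

end Chn

end Pool.Agent.GaussPoset.Mp
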