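import Pool.Agent.W_448ce_h84.CeB

/-!
MP_448cb3_co, G2, case B: the near elements of a part with the pattern [DL], `w32 = 0`: which ones they
are, the lower covers of the sites, the children of the near elements.
-/

namespace Pool.Agent.GaussPoset.Win.W4

set_option linter.unusedSectionVars false

open Finset
open Pool.Agent.GaussPoset.Win.SO (PN vp con on mem_PN vp_PD vp_PU TD)
open Pool.Agent.GaussPoset.Mp (dcv_inter ucv_inter two_covers dc_le2 com_add com_one Chn)

universe u

variable {P : Type u} [Fintype P] [PartialOrder P] [DecidableEq P] {r i : ℕ}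
variable {psi : P → P} {C K : Finset P} {w v : P} {m : ℕ} {x : ℕ → P}

/-- the near elements on the lower side: the twins `w`, `y0` over `x 0, x 1`, the doubles `f k` over
`x k, x (k + 1)`, `2 ≤ k < m`, and possibly a single element at `x m` -/
structure LRow (i : ℕ) (C : Finset P) (w y0 : P) (m : ℕ) (x f : ℕ → P) : Prop where
  ne0 : y0 ≠ w
  uw : uc w = {x 0, x 1}
  uy : uc y0 = {x 0, x 1}
  uf : ∀ k, 2 ≤ k → k < m → uc (f k) = {x k, x (k + 1)}
  wC : w ∈ C
  yC : y0 ∈ C
  fC : ∀ k, 2 ≤ k → k < m → f k ∈ C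
  lw : lev w = i + 1
  ly : lev y0 = i + 1
  lf : ∀ k, 2 ≤ k → k < m → lev (f k) = i + 1
  d0 : dc (x 0) = {w, y0}
  d1 : dc (x 1) = {w, y0}
  d2 : dc (x 2) = {f 2}
  dk : ∀ k, 3 ≤ k → k < m → dc (x k) = {f (k - 1), f k}
  dm : dc (x m) = insert (f (m - 1)) (pen (x m))
  pm : (pen (x m)).card ≤ 1

namespace DLr

variable (h : DLr r i K psi C w v m x)
include h

/-- the lower double over an edge -/
lemma ex_f {k : ℕ} (h2 : 2 ≤ k) (hk : k < m) : ∃ y, uc y = ed x k ∧ y ∈ C ∧ lev y = i + 1 ∧
    ∀ y', uc y' = ed x k → y' = y := by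
  classical
  have hd := h.dn k (k + 1) (by omega) (by omega)
  rw [if_pos rfl, if_neg (by omega), if_neg (by omega), dcv_inter, card_eq_one] at hd
  obtain ⟨y, hy⟩ := hd
  have hy1 : y ∈ dc (x k) ∩ dc (x (k + 1)) := by rw [hy]; exact mem_singleton_self y
  rw [mem_inter] at hy1
  have hl := lev_cov h.W.H (mem_dc.1 hy1.1)
  have hx := h.W.lev_x k (by omega)
  refine ⟨y, StB_uc_pair h.W.H (mem_dc.1 hy1.1) (mem_dc.1 hy1.2)
    (h.W.ne (by omega) (by omega) (by omega)), ?_, by omega, ?_⟩
  · exact h.W.hC.dn (h.W.mem k (by omega)) (by omega) (mem_dc.1 hy1.1)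
  · intro y' hy'
    have : y' ∈ dc (x k) ∩ dc (x (k + 1)) := by
      rw [mem_inter]
      constructor
      · rw [mem_dc, ← mem_uc, hy']; exact (h.W.mem_ed (by omega) hk).2 (Or.inl rfl)
      · rw [mem_dc, ← mem_uc, hy']; exact (h.W.mem_ed (by omega) hk).2 (Or.inr rfl)
    rw [hy, mem_singleton] at this
    exact this

/-- the twin of `w` -/
lemma ex_y : ∃ y, y ≠ w ∧ uc y = ed x 0 ∧ y ∈ C ∧ lev y = i + 1 ∧
    ∀ y', uc y' = ed x 0 → y' = w ∨ y' = y := by
  classical
  have hm := h.hm
  have hd := h.dn 0 1 (by omega) (by omega)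
  rw [if_pos rfl, if_pos rfl, dcv_inter, card_eq_two] at hd
  obtain ⟨a, b, hab, hy⟩ := hd
  have hww : w ∈ dc (x 0) ∩ dc (x 1) := by
    rw [mem_inter, mem_dc, mem_dc, ← mem_uc, ← mem_uc, h.hw]
    exact ⟨mem_insert_self _ _, mem_insert_of_mem (mem_singleton_self _)⟩
  have key : ∀ y ∈ dc (x 0) ∩ dc (x 1), uc y = ed x 0 ∧ y ∈ C ∧ lev y = i + 1 := by
    intro y hy
    rw [mem_inter] at hy
    have hl := lev_cov h.W.H (mem_dc.1 hy.1)
    have hx := h.W.lev_x 0 (by omega)
    exact ⟨StB_uc_pair h.W.H (mem_dc.1 hy.1) (mem_dc.1 hy.2) h.n01,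
      h.W.hC.dn (h.W.mem 0 (by omega)) (by omega) (mem_dc.1 hy.1), by omega⟩
  have all : ∀ y', uc y' = ed x 0 → y' ∈ dc (x 0) ∩ dc (x 1) := by
    intro y' hy'
    rw [mem_inter]
    constructor
    · rw [mem_dc, ← mem_uc, hy']; exact (h.W.mem_ed (by omega) (by omega)).2 (Or.inl rfl)
    · rw [mem_dc, ← mem_uc, hy']; exact (h.W.mem_ed (by omega) (by omega)).2 (Or.inr rfl)
  have hw2 : w = a ∨ w = b := by
    rw [hy, mem_insert, mem_singleton] at hww
    exact hww
  rcases hw2 with rfl | rfl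
  · have hb : b ∈ dc (x 0) ∩ dc (x 1) := by rw [hy]; exact mem_insert_of_mem (mem_singleton_self _)
    refine ⟨b, hab.symm, (key b hb).1, (key b hb).2.1, (key b hb).2.2, fun y' hy' => ?_⟩
    have := all y' hy'
    rw [hy, mem_insert, mem_singleton] at this
    exact this
  · have ha : a ∈ dc (x 0) ∩ dc (x 1) := by rw [hy]; exact mem_insert_self _ _
    refine ⟨a, hab, (key a ha).1, (key a ha).2.1, (key a ha).2.2, fun y' hy' => ?_⟩
    have := all y' hy'
    rw [hy, mem_insert, mem_singleton] at this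
    exact this.symm

/-- no double over the lost edge -/
lemma no_f1 (y : P) : uc y ≠ ed x 1 := by
  classical
  intro hy
  have hm := h.hm
  have hd := h.dn 1 2 (by omega) (by omega)
  rw [if_pos rfl, if_neg (by omega), if_pos rfl, dcv_inter, card_eq_zero] at hd
  have : y ∈ dc (x 1) ∩ dc (x 2) := by
    rw [mem_inter]
    constructor
    · rw [mem_dc, ← mem_uc, hy]; exact (h.W.mem_ed (by omega) (by omega)).2 (Or.inl rfl)
    · rw [mem_dc, ← mem_uc, hy]; exact (h.W.mem_ed (by omega) (by omega)).2 (Or.inr rfl)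
  rw [hd] at this
  exact absurd this (notMem_empty y)

lemma pen0' : pen (x 0) = ∅ := by
  have hm := h.hm
  have h1 := h.W.deg (k := 0) (by omega)
  have h2 := h.W.dc_le (k := 0) (by omega)
  have h3 : dcv (x 0) (x 1) ≤ ∑ l ∈ (range (m + 1)).erase 0, dcv (x 0) (x l) :=
    single_le_sum (f := fun l => dcv (x 0) (x l)) (fun _ _ => Nat.zero_le _)
      (mem_erase.2 ⟨by omega, mem_range.2 (by omega)⟩)
  rw [h.dn 0 1 (by omega) (by omega), if_pos rfl, if_pos rfl] at h3
  rw [← card_eq_zero]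
  omega

lemma pen1' : pen (x 1) = ∅ := by
  have hm := h.hm
  have h1 := h.W.deg (k := 1) (by omega)
  have h2 := h.W.dc_le (k := 1) (by omega)
  have h3 : dcv (x 1) (x 0) ≤ ∑ l ∈ (range (m + 1)).erase 1, dcv (x 1) (x l) :=
    single_le_sum (f := fun l => dcv (x 1) (x l)) (fun _ _ => Nat.zero_le _)
      (mem_erase.2 ⟨by omega, mem_range.2 (by omega)⟩)
  rw [h.dns (by omega) (by omega) (by omega)] at h3
  norm_num at h3
  rw [← card_eq_zero]
  omega

lemma pen_k' {k : ℕ} (h3 : 3 ≤ k) (hk : k < m) : pen (x k) = ∅ := by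
  have h1 := h.W.deg (k := k) (by omega)
  have h2 := h.W.dc_le (k := k) (by omega)
  have h4 : ∑ l ∈ ({k - 1, k + 1} : Finset ℕ), dcv (x k) (x l) ≤
      ∑ l ∈ (range (m + 1)).erase k, dcv (x k) (x l) := by
    refine sum_le_sum_of_subset ?_
    intro l hl
    rw [mem_insert, mem_singleton] at hl
    rw [mem_erase, mem_range]
    omega
  rw [sum_pair (by omega), h.dns (by omega) (by omega) (by omega),
    h.dns (by omega) (by omega) (by omega), if_neg (by omega), if_pos (by omega),
    if_neg (by omega), if_neg (by omega), if_pos rfl, if_neg (by omega), if_neg (by omega)] at h4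
  rw [← card_eq_zero]
  omega

lemma pen_m (hm4 : 4 ≤ m) : (pen (x m)).card ≤ 1 := by
  have h1 := h.W.deg (k := m) (by omega)
  have h2 := h.W.dc_le (k := m) (by omega)
  have h3 : dcv (x m) (x (m - 1)) ≤ ∑ l ∈ (range (m + 1)).erase m, dcv (x m) (x l) :=
    single_le_sum (f := fun l => dcv (x m) (x l)) (fun _ _ => Nat.zero_le _)
      (mem_erase.2 ⟨by omega, mem_range.2 (by omega)⟩)
  rw [h.dns (by omega) (by omega) (by omega), if_neg (by omega), if_pos (by omega),
    if_neg (by omega), if_neg (by omega)] at h3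
  omega

/-- the near elements at a site -/
lemma dc_site {k : ℕ} (hk : k ≤ m) {y : P} (hy : y ∈ dc (x k)) : y ∈ pen (x k) ∨
    ∃ l, l < m ∧ uc y = ed x l ∧ (k = l ∨ k = l + 1) := by
  have hy' := mem_dc.1 hy
  have hl := lev_cov h.W.H hy'
  have hx := h.W.lev_x k hk
  rcases uc_card_cases h.W.H (x := y) (by omega) with h1 | h1
  · exact Or.inl (mem_pen.2 ⟨hy', h1⟩)
  · right
    have hyC := h.W.hC.dn (h.W.mem k hk) (by omega) hy'
    obtain ⟨l, hl', hu⟩ := h.W.lo_ed h.hd hyC (by omega) h1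
    refine ⟨l, hl', hu, ?_⟩
    have : x k ∈ uc y := mem_uc.2 hy'
    rw [hu, h.W.mem_ed hk hl'] at this
    exact this

/-- the row of the near elements -/
theorem lrow (hm4 : 4 ≤ m) : ∃ y0 f, LRow i C w y0 m x f := by
  classical
  have H := h.W.H
  obtain ⟨y0, q1, q2, q3, q4, q5⟩ := h.ex_y
  have hf : ∃ f : ℕ → P, ∀ k, 2 ≤ k → k < m → uc (f k) = ed x k ∧ f k ∈ C ∧
      lev (f k) = i + 1 ∧ ∀ y', uc y' = ed x k → y' = f k := by
    refine ⟨fun k => if hk : 2 ≤ k ∧ k < m then (h.ex_f hk.1 hk.2).choose else w, ?_⟩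
    intro k h2 hk
    have := (h.ex_f h2 hk).choose_spec
    simp only [dif_pos (show 2 ≤ k ∧ k < m from ⟨h2, hk⟩)]
    exact this
  obtain ⟨f, hf⟩ := hf
  have hwe : uc w = ed x 0 := h.hw
  have m1 : ∀ y a b, uc y = ({a, b} : Finset P) → y ∈ dc a ∧ y ∈ dc b := by
    intro y a b hu
    rw [mem_dc, mem_dc, ← mem_uc, ← mem_uc, hu]
    exact ⟨mem_insert_self _ _, mem_insert_of_mem (mem_singleton_self _)⟩
  refine ⟨y0, f, q1, h.hw, q2, fun k h2 hk => (hf k h2 hk).1, h.Q.wC, q3,
    fun k h2 hk => (hf k h2 hk).2.1, h.Q.lw0, q4, fun k h2 hk => (hf k h2 hk).2.2.1, ?_, ?_, ?_, ?_,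
    ?_, h.pen_m hm4⟩
  · ext y
    rw [mem_insert, mem_singleton]
    constructor
    · intro hy
      rcases h.dc_site (by omega) hy with h1 | ⟨l, hl, hu, h1⟩
      · rw [h.pen0'] at h1; exact absurd h1 (notMem_empty y)
      · have : l = 0 := by omega
        subst this
        exact q5 y hu
    · rintro (rfl | rfl)
      · exact (m1 _ _ _ h.hw).1
      · exact (m1 _ _ _ q2).1
  · ext y
    rw [mem_insert, mem_singleton]
    constructor
    · intro hy
      rcases h.dc_site (by omega) hy with h1 | ⟨l, hl, hu, h1⟩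
      · rw [h.pen1'] at h1; exact absurd h1 (notMem_empty y)
      · rcases h1 with h1 | h1
        · subst h1
          exact absurd hu (h.no_f1 y)
        · have : l = 0 := by omega
          subst this
          exact q5 y hu
    · rintro (rfl | rfl)
      · exact (m1 _ _ _ h.hw).2
      · exact (m1 _ _ _ q2).2
  · ext y
    rw [mem_singleton]
    constructor
    · intro hy
      rcases h.dc_site (by omega) hy with h1 | ⟨l, hl, hu, h1⟩
      · rw [h.W.pen0 2 le_rfl (by omega)] at h1; exact absurd h1 (notMem_empty y)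
      · rcases h1 with h1 | h1
        · subst h1
          exact (hf 2 le_rfl (by omega)).2.2.2 y hu
        · have : l = 1 := by omega
          subst this
          exact absurd hu (h.no_f1 y)
    · rintro rfl
      exact (m1 _ _ _ (hf 2 le_rfl (by omega)).1).1
  · intro k h3 hk
    ext y
    rw [mem_insert, mem_singleton]
    constructor
    · intro hy
      rcases h.dc_site (by omega) hy with h1 | ⟨l, hl, hu, h1⟩
      · rw [h.pen_k' h3 hk] at h1; exact absurd h1 (notMem_empty y)
      · rcases h1 with h1 | h1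
        · subst h1
          exact Or.inr ((hf k (by omega) (by omega)).2.2.2 y hu)
        · have : l = k - 1 := by omega
          subst this
          exact Or.inl ((hf (k - 1) (by omega) (by omega)).2.2.2 y hu)
    · rintro (rfl | rfl)
      · have := (m1 _ _ _ (hf (k - 1) (by omega) (by omega)).1).2
        rwa [show k - 1 + 1 = k by omega] at this
      · exact (m1 _ _ _ (hf k (by omega) (by omega)).1).1
  · ext y
    rw [mem_insert]
    constructor
    · intro hy
      rcases h.dc_site le_rfl hy with h1 | ⟨l, hl, hu, h1⟩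
      · exact Or.inr h1
      · have : l = m - 1 := by omega
        subst this
        exact Or.inl ((hf (m - 1) (by omega) (by omega)).2.2.2 y hu)
    · rintro (rfl | h1)
      · have := (m1 _ _ _ (hf (m - 1) (by omega) (by omega)).1).2
        rwa [show m - 1 + 1 = m by omega] at this
      · exact mem_dc.2 (mem_pen.1 h1).1

end DLr

end Pool.Agent.GaussPoset.Win.W4
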