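import Pool.Agent.W_448ce_h84.CeC
import Pool.Agent.W_448h2_h63.HA

/-!
MP_448cb3_co, G2, case B: the parts with the pattern [DL], `w32 = 0` and `F = 0`: the children of the
near elements, the list of the remaining parts.
-/

namespace Pool.Agent.GaussPoset.Win.W4

set_option linter.unusedSectionVars false

open Finset
open Pool.Agent.GaussPoset.Win.SO (PN vp con on mem_PN vp_PD vp_PU TD)
open Pool.Agent.GaussPoset.Mp (dcv_inter ucv_inter two_covers dc_le2 com_add com_one Chn Df_val)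
open Pool.Agent.GaussPoset.Win.H2 (NoT)

universe u

variable {P : Type u} [Fintype P] [PartialOrder P] [DecidableEq P] {r i : ℕ}
variable {psi : P → P} {C K : Finset P} {w v : P} {m : ℕ} {x : ℕ → P}

/-- the hypotheses of the list -/
structure CeH (r i : ℕ) (K : Finset P) (psi : P → P) (C : Finset P) (w v : P) (m : ℕ) (x : ℕ → P) :
    Prop where
  D : DLr r i K psi C w v m x
  hm4 : 4 ≤ m
  n0 : (uc (x 0)).card = 2
  F0 : Fv i C = 0
  hT : NoT P (i + 2)
  cl : ∀ g : P, lev g = i + 2 → (∀ s ∈ uc g, s ∈ C) → g ∈ C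
  hU : (pen (x m)).Nonempty → UE i C x (m - 1) = ∅

namespace CeH

variable (h : CeH r i K psi C w v m x)
include h

/-- private children of a double are pendants over its edge -/
lemma pen_DE {y z : P} {k : ℕ} (hk : k < m) (hy : uc y = ed x k) (hyC : y ∈ C) (hz : z ∈ pen y) :
    z ∈ DE i C x k := by
  have H := h.D.W.H
  have h1 := mem_pen.1 hz
  have hu := uc_pen hz
  have hxk : x k ∈ uc y := by rw [hy]; exact (h.D.W.mem_ed (by omega) hk).2 (Or.inl rfl)
  have hl1 := lev_uc H hxk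
  have hl2 := lev_cov H h1.1
  have hx := h.D.W.lev_x k (by omega)
  refine mem_DE.2 ⟨h.D.W.cl z y hyC hu, mem_PD.2 ⟨by omega, h1.2, y, h1.1, ?_⟩, ?_⟩
  · rw [hy]; exact h.D.W.card_ed hk
  · rw [SO.sit_PD H (by omega) hu, hy]

/-- the children of a double: private or common with another element at one of its sites -/
lemma kid_dbl {y z : P} (hl : lev y = i + 1) (hy : (uc y).card = 2) (hz : z ∈ dc y) :
    z ∈ pen y ∨ ∃ y', y' ≠ y ∧ z ∈ dc y' ∧ lev y' = i + 1 ∧ ∃ s ∈ uc y, s ∈ uc y' := by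
  have H := h.D.W.H
  have hz' := mem_dc.1 hz
  have hlz := lev_cov H hz'
  rcases uc_card_cases H (x := z) (by omega) with h1 | h1
  · exact Or.inl (mem_pen.2 ⟨hz', h1⟩)
  · right
    obtain ⟨y', hy', hne⟩ := exists_other_uc (y := y) h1
    have := lev_cov H hy'
    exact ⟨y', hne, mem_dc.2 hy', by omega,
      h.hT z (by omega) y (mem_uc.2 hz') y' (mem_uc.2 hy') hne.symm hy⟩

/-- without common upper cover there is no common child -/
lemma no_com {y y' : P} (hl : lev y = i + 1) (hy : (uc y).card = 2) (hne : y ≠ y')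
    (hu : ucv y y' = 0) : dcv y y' = 0 := by
  rw [dcv_inter, card_eq_zero]
  by_contra hc
  obtain ⟨z, hz⟩ := nonempty_iff_ne_empty.2 hc
  rw [mem_inter] at hz
  have H := h.D.W.H
  have hlz := lev_cov H (mem_dc.1 hz.1)
  obtain ⟨s, h1, h2⟩ := h.hT z (by omega) y (mem_uc.2 (mem_dc.1 hz.1)) y'
    (mem_uc.2 (mem_dc.1 hz.2)) hne hy
  rw [ucv_inter, card_eq_zero] at hu
  have : s ∈ uc y ∩ uc y' := mem_inter.2 ⟨h1, h2⟩
  rw [hu] at this
  exact absurd this (notMem_empty s)

variable {y0 : P} {f : ℕ → P} (L : LRow i C w y0 m x f)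
include L

lemma card_w : (uc w).card = 2 := by
  rw [L.uw]; exact h.D.W.card_ed (k := 0) (by have := h.hm4; omega)

lemma card_y : (uc y0).card = 2 := by
  rw [L.uy]; exact h.D.W.card_ed (k := 0) (by have := h.hm4; omega)

lemma card_f {k : ℕ} (h2 : 2 ≤ k) (hk : k < m) : (uc (f k)).card = 2 := by
  rw [L.uf k h2 hk]; exact h.D.W.card_ed hk

lemma pen_w : pen w = ∅ := by
  obtain ⟨h1, -⟩ := h.D.F_closed_zero h.hm4 h.n0 h.F0
  by_contra hc
  obtain ⟨z, hz⟩ := nonempty_iff_ne_empty.2 hc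
  have := h.pen_DE (k := 0) (by have := h.hm4; omega) L.uw L.wC hz
  rw [h1] at this
  exact absurd this (notMem_empty z)

lemma pen_y : pen y0 = ∅ := by
  obtain ⟨h1, -⟩ := h.D.F_closed_zero h.hm4 h.n0 h.F0
  by_contra hc
  obtain ⟨z, hz⟩ := nonempty_iff_ne_empty.2 hc
  have := h.pen_DE (k := 0) (by have := h.hm4; omega) L.uy L.yC hz
  rw [h1] at this
  exact absurd this (notMem_empty z)

/-- an element with a common site with `w` is its twin -/
lemma nb_w {y' : P} (hne : y' ≠ w) (hs : ∃ s ∈ uc w, s ∈ uc y') : y' = y0 := by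
  obtain ⟨s, h1, h2⟩ := hs
  have h3 : y' ∈ dc s := mem_dc.2 (mem_uc.1 h2)
  rw [L.uw, mem_insert, mem_singleton] at h1
  rcases h1 with rfl | rfl
  · rw [L.d0, mem_insert, mem_singleton] at h3
    exact h3.resolve_left hne
  · rw [L.d1, mem_insert, mem_singleton] at h3
    exact h3.resolve_left hne

lemma nb_y {y' : P} (hne : y' ≠ y0) (hs : ∃ s ∈ uc y0, s ∈ uc y') : y' = w := by
  obtain ⟨s, h1, h2⟩ := hs
  have h3 : y' ∈ dc s := mem_dc.2 (mem_uc.1 h2)
  rw [L.uy, mem_insert, mem_singleton] at h1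
  rcases h1 with rfl | rfl
  · rw [L.d0, mem_insert, mem_singleton] at h3
    exact h3.resolve_right hne
  · rw [L.d1, mem_insert, mem_singleton] at h3
    exact h3.resolve_right hne

/-- an element with a common site with `f k` -/
lemma nb_f {k : ℕ} (h2 : 2 ≤ k) (hk : k < m) {y' : P} (hne : y' ≠ f k)
    (hs : ∃ s ∈ uc (f k), s ∈ uc y') :
    (3 ≤ k ∧ y' = f (k - 1)) ∨ (k + 1 < m ∧ y' = f (k + 1)) ∨ (k + 1 = m ∧ y' ∈ pen (x m)) := by
  obtain ⟨s, h1, h3⟩ := hs
  have h4 : y' ∈ dc s := mem_dc.2 (mem_uc.1 h3)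
  rw [L.uf k h2 hk, mem_insert, mem_singleton] at h1
  rcases h1 with rfl | rfl
  · rcases Nat.lt_or_ge 2 k with h5 | h5
    · rw [L.dk k h5 hk, mem_insert, mem_singleton] at h4
      exact Or.inl ⟨h5, h4.resolve_right hne⟩
    · have : k = 2 := by omega
      subst this
      rw [L.d2, mem_singleton] at h4
      exact absurd h4 hne
  · rcases Nat.lt_or_ge (k + 1) m with h5 | h5
    · rw [L.dk (k + 1) (by omega) h5, mem_insert, mem_singleton,
        show k + 1 - 1 = k by omega] at h4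
      exact Or.inr (Or.inl ⟨h5, h4.resolve_left hne⟩)
    · have : k + 1 = m := by omega
      rw [this, L.dm, mem_insert, show m - 1 = k by omega] at h4
      exact Or.inr (Or.inr ⟨this, h4.resolve_left hne⟩)

/-- the children of the twins are common -/
theorem twins : dc w = dc y0 := by
  have hm := h.hm4
  ext z
  constructor
  · intro hz
    rcases h.kid_dbl L.lw (h.card_w L) hz with h1 | ⟨y', h1, h2, -, h3⟩
    · rw [h.pen_w L] at h1; exact absurd h1 (notMem_empty z)
    · rwa [h.nb_w L h1 h3] at h2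
  · intro hz
    rcases h.kid_dbl L.ly (h.card_y L) hz with h1 | ⟨y', h1, h2, -, h3⟩
    · rw [h.pen_y L] at h1; exact absurd h1 (notMem_empty z)
    · rwa [h.nb_y L h1 h3] at h2

theorem twins_two : (dc w).card = 2 := by
  have H := h.D.W.H
  have hi2 := h.D.W.hi2
  have hu : ucv w y0 = 2 := by
    rw [ucv_inter, L.uw, L.uy, inter_self]
    exact h.D.W.card_ed (k := 0) (by have := h.hm4; omega)
  have e := Mp.pair_eq (i := i + 1) H hi2 L.lw L.ly L.ne0.symm ?_
  · rw [hu, dcv_inter, ← h.twins L, inter_self] at e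
    exact e
  · intro y' hl h1 h2
    have k1 : ucv w y' = 0 := by
      rw [ucv_inter, card_eq_zero]
      by_contra hc
      obtain ⟨s, hs⟩ := nonempty_iff_ne_empty.2 hc
      rw [mem_inter] at hs
      exact h2 (h.nb_w L h1 ⟨s, hs⟩)
    have k2 : ucv y0 y' = 0 := by
      rw [ucv_inter, card_eq_zero]
      by_contra hc
      obtain ⟨s, hs⟩ := nonempty_iff_ne_empty.2 hc
      rw [mem_inter] at hs
      exact h1 (h.nb_y L h2 ⟨s, hs⟩)
    rw [Df_val H L.lw h1.symm, Df_val H L.ly h2.symm, k1, k2,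
      h.no_com L.lw (h.card_w L) h1.symm k1, h.no_com L.ly (h.card_y L) h2.symm k2]
    norm_num

/-- no common child of `f 2` and `f 3` -/
theorem t0 : dcv (f 2) (f 3) = 0 := by
  obtain ⟨-, -, -, h1, -⟩ := h.D.F_closed_zero h.hm4 h.n0 h.F0
  have hm := h.hm4
  have H := h.D.W.H
  rw [dcv_inter, card_eq_zero]
  by_contra hc
  obtain ⟨z, hz⟩ := nonempty_iff_ne_empty.2 hc
  rw [mem_inter] at hz
  have hne : f 2 ≠ f 3 := by
    intro h2
    have h3 := L.uf 2 le_rfl (by omega)
    rw [h2, L.uf 3 (by omega) (by omega)] at h3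
    have := h.D.W.ed_inj (k := 3) (l := 2) (by omega) (by omega) h3
    omega
  have hu := StB_uc_pair H (mem_dc.1 hz.1) (mem_dc.1 hz.2) hne
  have hlz := lev_cov H (mem_dc.1 hz.1)
  have hlf := L.lf 2 le_rfl (by omega)
  have hsit : sts i z = ed x 2 ∪ ed x 3 := by
    ext q
    rw [mem_sts_iff H (by omega), hu, mem_union]
    constructor
    · rintro ⟨y, hy, hq⟩
      rw [mem_insert, mem_singleton] at hy
      rcases hy with rfl | rfl
      · rw [L.uf 2 le_rfl (by omega)] at hq; exact Or.inl hq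
      · rw [L.uf 3 (by omega) (by omega)] at hq; exact Or.inr hq
    · rintro (hq | hq)
      · exact ⟨f 2, mem_insert_self _ _, by rw [L.uf 2 le_rfl (by omega)]; exact hq⟩
      · exact ⟨f 3, mem_insert_of_mem (mem_singleton_self _),
          by rw [L.uf 3 (by omega) (by omega)]; exact hq⟩
  have hcard : (ed x 2 ∪ ed x 3).card = 3 := by
    have e1 := (h.D.W.inter_ed (k := 2) (l := 3) (by omega) (by omega)).2 (Or.inl rfl)
    have e2 := card_union_add_card_inter (ed x 2) (ed x 3)
    rw [h.D.W.card_ed (by omega), h.D.W.card_ed (by omega)] at e2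
    omega
  have hzC : z ∈ C := by
    refine h.cl z (by omega) fun s hs => ?_
    rw [hu, mem_insert, mem_singleton] at hs
    rcases hs with rfl | rfl
    · exact L.fC 2 le_rfl (by omega)
    · exact L.fC 3 (by omega) (by omega)
  have : z ∈ TLs i C x := by
    unfold TLs
    rw [mem_filter]
    refine ⟨mem_T4.2 (Or.inl ⟨mem_ZL.2 ⟨hzC, by omega, ?_⟩, ?_⟩), by omega, ?_⟩
    · rw [← card_sts, hsit, hcard]
    · intro s hs
      rw [hu, mem_insert, mem_singleton] at hs
      rcases hs with rfl | rfl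
      · exact h.card_f L le_rfl (by omega)
      · exact h.card_f L (by omega) (by omega)
    · rw [sit_low H (by omega), hsit]
  rw [h1] at this
  exact absurd this (notMem_empty z)

/-- the only child of `f 2` -/
theorem kid2 : ∃ a, dc (f 2) = {a} ∧ uc a = {f 2} ∧ (pen a).card = 2 ∧ a ∈ C ∧ a ∈ PD P i := by
  have hm := h.hm4
  obtain ⟨-, -, -, -, -, a, y, h1, h2, h3, h4, h5, h6, h7⟩ :=
    h.D.F_closed_zero h.hm4 h.n0 h.F0
  have hy : y = f 2 := by
    have hx : x 2 ∈ uc y := by rw [h5]; exact (h.D.W.mem_ed (by omega) (by omega)).2 (Or.inl rfl)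
    have : y ∈ dc (x 2) := mem_dc.2 (mem_uc.1 hx)
    rw [L.d2, mem_singleton] at this
    exact this
  subst hy
  refine ⟨a, ?_, h4, h7, h2, h3⟩
  ext z
  rw [mem_singleton]
  constructor
  · intro hz
    rcases h.kid_dbl (L.lf 2 le_rfl (by omega)) (h.card_f L le_rfl (by omega)) hz with
      h8 | ⟨y', g1, g2, -, g3⟩
    · have := h.pen_DE (k := 2) (by omega) h5 (L.fC 2 le_rfl (by omega)) h8
      rw [h1, mem_singleton] at this
      exact this
    · exfalso
      rcases h.nb_f L (k := 2) le_rfl (by omega) g1 g3 with ⟨g4, -⟩ | ⟨-, g4⟩ | ⟨g4, -⟩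
      · omega
      · have := h.t0 L
        rw [dcv_inter, card_eq_zero] at this
        have g5 : z ∈ dc (f 2) ∩ dc (f 3) := mem_inter.2 ⟨hz, by rw [g4] at g2; exact g2⟩
        rw [this] at g5
        exact absurd g5 (notMem_empty z)
      · omega
  · rintro rfl
    exact mem_dc.2 (mem_uc.1 (by rw [h4]; exact mem_singleton_self _))

end CeH

end Pool.Agent.GaussPoset.Win.W4
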