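import Pool.Agent.W_448ce_h84.CeD

/-!
MP_448cb3_co, G2, case B: the list of the parts with the pattern [DL], `w32 = 0` and `F = 0`.
-/

namespace Pool.Agent.GaussPoset.Win.W4

set_option linter.unusedSectionVars false

open Finset
open Pool.Agent.GaussPoset.Win.SO (PN vp con on mem_PN vp_PD vp_PU TD)
open Pool.Agent.GaussPoset.Mp (dcv_inter ucv_inter two_covers dc_le2 com_add com_one Chn Df_val)
open Pool.Agent.GaussPoset.Win.H2 (NoT)

universe u

variable {P : Type u} [Fintype P] [PartialOrder P] [DecidableEq P] {r i : ℕ}
variable {psi : P → P} {C K : Finset P} {w v : P} {m : ℕ} {x : ℕ → P}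

/-- the outcome of the list -/
structure LOut (i : ℕ) (C : Finset P) (w y0 : P) (m : ℕ) (x f : ℕ → P) (a : P) : Prop where
  L : LRow i C w y0 m x f
  tw : dc w = dc y0
  tw2 : (dc w).card = 2
  da : dc (f 2) = {a}
  ua : uc a = {f 2}
  pa : (pen a).card = 2
  aC : a ∈ C
  aPD : a ∈ PD P i
  ue2 : UE i C x 2 = ∅
  blk : ∀ l, 1 ≤ l → 2 * l + 2 < m → dc (f (2 * l + 1)) = dc (f (2 * l + 2)) ∧
    (dc (f (2 * l + 1))).card = 2
  fin : (m = 4 ∧ ∃ p, pen (x m) = {p} ∧ dc p = dc (f 3) ∧ (dc p).card = 2) ∨
    (m = 5 ∧ pen (x m) = ∅) ∨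
    (∃ k, 1 ≤ k ∧ m = 2 * k + 3 ∧ ∃ p, pen (x m) = {p} ∧ UE i C x (m - 1) = ∅ ∧
      (∀ z ∈ dc p, ∀ y ∈ C, z ∈ dc y → y = p) ∧ ∃ z ∈ dc p, (uc z).card = 2)

namespace CeH

variable (h : CeH r i K psi C w v m x)
include h

variable {y0 : P} {f : ℕ → P} (L : LRow i C w y0 m x f)
include L

lemma f_inj {k l : ℕ} (h2 : 2 ≤ k) (hk : k < m) (h3 : 2 ≤ l) (hl : l < m) (hf : f k = f l) :
    k = l := by
  have h4 := L.uf k h2 hk
  rw [hf, L.uf l h3 hl] at h4
  exact (h.D.W.ed_inj (k := l) (l := k) hl hk h4).symm

/-- common upper covers of two doubles of the row -/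
lemma ucv_f {k l : ℕ} (h2 : 2 ≤ k) (hk : k < m) (h3 : 2 ≤ l) (hl : l < m) :
    (l = k + 1 → ucv (f k) (f l) = 1) ∧ (k + 2 ≤ l → ucv (f k) (f l) = 0) := by
  rw [ucv_inter, L.uf k h2 hk, L.uf l h3 hl]
  constructor
  · intro e
    exact (h.D.W.inter_ed (k := k) (l := l) hk hl).2 (Or.inl e)
  · intro e
    rw [card_eq_zero, ← disjoint_iff_inter_eq_empty]
    exact (h.D.W.disj_ed (k := k) (l := l) hk hl).2 (Or.inl e)

/-- an element without common site with `f k` -/
lemma far_f {k : ℕ} (h2 : 2 ≤ k) (hk : k < m) {y' : P} (hne : y' ≠ f k)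
    (h1 : 3 ≤ k → y' ≠ f (k - 1)) (h3 : k + 1 < m → y' ≠ f (k + 1))
    (h4 : k + 1 = m → y' ∉ pen (x m)) : ucv (f k) y' = 0 ∧ dcv (f k) y' = 0 := by
  have e : ucv (f k) y' = 0 := by
    rw [ucv_inter, card_eq_zero]
    by_contra hc
    obtain ⟨s, hs⟩ := nonempty_iff_ne_empty.2 hc
    rw [mem_inter] at hs
    rcases h.nb_f L h2 hk hne ⟨s, hs⟩ with ⟨g1, g2⟩ | ⟨g1, g2⟩ | ⟨g1, g2⟩
    · exact h1 g1 g2
    · exact h3 g1 g2
    · exact h4 g1 g2
  exact ⟨e, h.no_com (L.lf k h2 hk) (h.card_f L h2 hk) hne.symm e⟩

/-- the chain without a single element at the end -/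
lemma chn0 (hp : pen (x m) = ∅) : Chn P (i + 1) (m - 3) (fun s => f (s + 2)) where
  lev_v a ha := L.lf (a + 2) (by omega) (by have := h.hm4; omega)
  inj a b ha hb hab := by
    have := h.hm4
    have := h.f_inj L (k := a + 2) (l := b + 2) (by omega) (by omega) (by omega) (by omega) hab
    omega
  adj a ha := (h.ucv_f L (k := a + 2) (l := a + 1 + 2) (by omega) (by omega) (by omega)
    (by omega)).1 (by omega)
  far a b hab hb := by
    have e := (h.ucv_f L (k := a + 2) (l := b + 2) (by omega) (by omega) (by omega)
      (by omega)).2 (by omega)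
    refine ⟨e, h.no_com (L.lf (a + 2) (by omega) (by omega))
      (h.card_f L (by omega) (by omega)) ?_ e⟩
    intro h1
    have := h.f_inj L (k := a + 2) (l := b + 2) (by omega) (by omega) (by omega) (by omega) h1
    omega
  out a ha w' hw' hb := by
    refine h.far_f L (k := a + 2) (by omega) (by omega) (hb a (by omega)) ?_ ?_ ?_
    · intro h1
      have := hb (a - 1) (by omega)
      rwa [show a - 1 + 2 = a + 2 - 1 by omega] at this
    · intro h1
      have := hb (a + 1) (by omega)
      rwa [show a + 1 + 2 = a + 2 + 1 by omega] at this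
    · intro h1
      rw [hp]
      exact notMem_empty _

/-- the chain with a single element at the end -/
lemma chn1 {p : P} (hp : pen (x m) = {p}) :
    Chn P (i + 1) (m - 2) (fun s => if s + 2 < m then f (s + 2) else p) := by
  have hm := h.hm4
  have H := h.D.W.H
  have hpp : p ∈ pen (x m) := by rw [hp]; exact mem_singleton_self p
  have hup := uc_pen hpp
  have hlp : lev p = i + 1 := by
    have h1 := lev_cov H (mem_pen.1 hpp).1
    have h2 := h.D.W.lev_x m le_rfl
    omega
  have hpf : ∀ k, 2 ≤ k → k < m → f k ≠ p := by
    intro k h2 hk h1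
    have h3 := h.card_f L h2 hk
    rw [h1, hup, card_singleton] at h3
    omega
  have hufp : ∀ k, 2 ≤ k → k < m → ucv (f k) p = if k + 1 = m then 1 else 0 := by
    intro k h2 hk
    rw [ucv_inter, L.uf k h2 hk, hup]
    have hmm := h.D.W.mem_ed (a := m) (k := k) le_rfl hk
    split_ifs with h3
    · rw [inter_singleton_of_mem, card_singleton]
      exact hmm.2 (Or.inr h3.symm)
    · rw [inter_singleton_of_notMem, card_empty]
      intro h4
      have := hmm.1 h4
      omega
  refine ⟨?_, ?_, ?_, ?_, ?_⟩
  · intro a ha
    split_ifs with h1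
    · exact L.lf (a + 2) (by omega) h1
    · exact hlp
  · intro a b ha hb hab
    split_ifs at hab with h1 h2 h2
    · have := h.f_inj L (k := a + 2) (l := b + 2) (by omega) (by omega) (by omega) (by omega) hab
      omega
    · exact absurd hab (hpf (a + 2) (by omega) h1)
    · exact absurd hab.symm (hpf (b + 2) (by omega) h2)
    · omega
  · intro a ha
    rw [if_pos (by omega)]
    split_ifs with h1
    · exact (h.ucv_f L (k := a + 2) (l := a + 1 + 2) (by omega) (by omega) (by omega)
        (by omega)).1 (by omega)
    · rw [hufp (a + 2) (by omega) (by omega), if_pos (by omega)]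
  · intro a b hab hb
    rw [if_pos (show a + 2 < m by omega)]
    split_ifs with h1
    · have e := (h.ucv_f L (k := a + 2) (l := b + 2) (by omega) (by omega) (by omega)
        (by omega)).2 (by omega)
      refine ⟨e, h.no_com (L.lf (a + 2) (by omega) (by omega))
        (h.card_f L (by omega) (by omega)) ?_ e⟩
      intro h1
      have := h.f_inj L (k := a + 2) (l := b + 2) (by omega) (by omega) (by omega) (by omega) h1
      omega
    · have e : ucv (f (a + 2)) p = 0 := by
        rw [hufp (a + 2) (by omega) (by omega), if_neg (by omega)]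
      exact ⟨e, h.no_com (L.lf (a + 2) (by omega) (by omega))
        (h.card_f L (by omega) (by omega)) (hpf _ (by omega) (by omega)) e⟩
  · intro a ha w' hw' hb

    rw [if_pos (show a + 2 < m by omega)]
    refine h.far_f L (k := a + 2) (by omega) (by omega) ?_ ?_ ?_ ?_
    · have := hb a (by omega)
      rwa [if_pos (by omega)] at this
    · intro h1
      have := hb (a - 1) (by omega)
      rwa [if_pos (by omega), show a - 1 + 2 = a + 2 - 1 by omega] at this
    · intro h1
      have := hb (a + 1) (by omega)
      rwa [if_pos (by omega), show a + 1 + 2 = a + 2 + 1 by omega] at this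
    · intro h1
      rw [hp, mem_singleton]
      have := hb (m - 2) (by omega)
      rwa [if_neg (by omega)] at this

/-- the private children of `f k` -/
lemma pen_f_le {k : ℕ} (h2 : 2 ≤ k) (hk : k < m) : (pen (f k)).card ≤ (DE i C x k).card :=
  card_le_card fun _ hz => h.pen_DE hk (L.uf k h2 hk) (L.fC k h2 hk) hz

/-- no private children in the middle -/
lemma de_mid {k : ℕ} (h3 : 3 ≤ k) (hk : k + 2 < m) : (DE i C x k).card = 0 := by
  have hm := h.hm4
  obtain ⟨-, h1, -⟩ := h.D.F_closed_zero h.hm4 h.n0 h.F0
  obtain ⟨h2, -, -⟩ := QS_zero (NE i C x) (s := 3) (t := m) (by omega)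
    (fun k hk hk' => h.D.NE_nonneg (by omega) (by omega)) h1
  have h4 := h2 k h3 hk
  unfold NE at h4
  rw [h.D.W.ue_inner (by omega) (by omega), card_empty] at h4
  push_cast at h4
  omega

/-- private children at the end -/
lemma de_end : (5 ≤ m → (DE i C x (m - 2)).card + (DE i C x (m - 1)).card ≤
      (UE i C x (m - 1)).card) ∧
    (m = 4 → (DE i C x 3).card ≤ (UE i C x 3).card) ∧ (UE i C x (m - 1)).card ≤ 1 := by
  have hm := h.hm4
  obtain ⟨-, h1, -⟩ := h.D.F_closed_zero h.hm4 h.n0 h.F0
  obtain ⟨-, h2, h3⟩ := QS_zero (NE i C x) (s := 3) (t := m) (by omega)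
    (fun k hk hk' => h.D.NE_nonneg (by omega) (by omega)) h1
  have key : ∀ g : ℤ, g ^ 2 + g = 0 → g ≤ 0 := by
    intro g hg
    nlinarith [sq_nonneg g]
  refine ⟨fun h5 => ?_, fun h5 => ?_, h.D.UE_le _⟩
  · have h6 := key _ (h2 (by omega))
    unfold NE at h6
    rw [h.D.W.ue_inner (k := m - 2) (by omega) (by omega), card_empty] at h6
    push_cast at h6
    omega
  · have h6 := key _ (h3 (by omega))
    subst h5
    unfold NE at h6
    push_cast at h6
    norm_num at h6
    omega

/-- THE LIST -/
theorem list : ∃ a, LOut i C w y0 m x f a := by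
  have hm := h.hm4
  have H := h.D.W.H
  obtain ⟨a, a1, a2, a3, a4, a5⟩ := h.kid2 L
  have hir : i + 1 < r := by
    have h1 := H.lev_le a
    have h2 := (lev_PD a5).1
    omega
  have hue2 : UE i C x 2 = ∅ := h.D.W.ue_inner (by omega) (by omega)
  have hpk : ∀ k, 3 ≤ k → k + 2 < m → pen (f k) = ∅ := by
    intro k h3 hk
    rw [← card_eq_zero]
    have h1 := h.pen_f_le L (k := k) (by omega) (by omega)
    have h2 := h.de_mid L h3 hk
    omega
  obtain ⟨e5, e4, e1⟩ := h.de_end L
  -- a block from its number of common children
  have hblk : ∀ k, 3 ≤ k → k + 1 < m → dcv (f k) (f (k + 1)) = 2 →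
      dc (f k) = dc (f (k + 1)) ∧ (dc (f k)).card = 2 := by
    intro k h3 hk hd
    have h5 := dc_le2 H (f k)
    have h6 := dc_le2 H (f (k + 1))
    rw [dcv_inter] at hd
    have g1 : dc (f k) ∩ dc (f (k + 1)) = dc (f k) :=
      eq_of_subset_of_card_le inter_subset_left (by omega)
    have g2 : dc (f k) ∩ dc (f (k + 1)) = dc (f (k + 1)) :=
      eq_of_subset_of_card_le inter_subset_right (by omega)
    refine ⟨by rw [← g1]; exact g2, by rw [← g1]; exact hd⟩
  have hpm := L.pm
  rcases (pen (x m)).eq_empty_or_nonempty with hp | hp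
  · -- no single element at the end
    have hC := h.chn0 L hp
    have hz : dcv (f 2) (f 3) = 0 := h.t0 L
    obtain ⟨g1, g2⟩ := hC.end_closed H hir (by omega) hz
      (fun s h1 h2 => hpk (s + 2) (by omega) (by omega))
      (fun w' hw' hb => h.far_f L (k := m - 3 + 2) (by omega) (by omega) (hb (m - 3) le_rfl)
        (fun h1 => by
          have := hb (m - 3 - 1) (by omega)
          rwa [show m - 3 - 1 + 2 = m - 3 + 2 - 1 by omega] at this)
        (fun h1 => by omega)
        (fun _ => by rw [hp]; exact notMem_empty _))
      (fun h1 => by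
        have k1 := h.pen_f_le L (k := m - 3 - 1 + 2) (by omega) (by omega)
        have k2 := h.pen_f_le L (k := m - 3 + 2) (by omega) (by omega)
        have k3 := e5 (by omega)
        have k4 : m - 3 - 1 + 2 = m - 2 := by omega
        have k5 : m - 3 + 2 = m - 1 := by omega
        show (pen (f (m - 3 - 1 + 2))).card + (pen (f (m - 3 + 2))).card ≤ 1
        rw [k4] at k1 ⊢
        rw [k5] at k2 ⊢
        omega)
      (fun h1 => by
        have h4 : m = 4 := by omega
        subst h4
        have k1 := h.pen_f_le L (k := 3) (by omega) (by omega)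
        have k3 := e4 rfl
        show (pen (f (4 - 3 + 2))).card ≤ 1
        have k5 : 4 - 3 + 2 = 3 := by omega
        have k6 : 4 - 1 = 3 := by omega
        rw [k6] at e1
        rw [k5]
        omega)
    have h5 : m = 5 := by omega
    subst h5
    refine ⟨a, L, h.twins L, h.twins_two L, a1, a2, a3, a4, a5, hue2, ?_, Or.inr (Or.inl ⟨rfl, hp⟩)⟩
    intro l h1 h2
    have : l = 1 := by omega
    subst this
    exact hblk 3 le_rfl (by omega) g2
  · -- a single element at the end
    have hU := h.hU hp
    obtain ⟨p, hp1⟩ := card_eq_one.1 (show (pen (x m)).card = 1 by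
      have := card_pos.2 hp
      omega)
    have hpp : p ∈ pen (x m) := by rw [hp1]; exact mem_singleton_self p
    have hup := uc_pen hpp
    have hlp : lev p = i + 1 := by
      have h1 := lev_cov H (mem_pen.1 hpp).1
      have h2 := h.D.W.lev_x m le_rfl
      omega
    have hC := h.chn1 L hp1
    have hpk' : ∀ k, 3 ≤ k → k < m → pen (f k) = ∅ := by
      intro k h3 hk
      rcases Nat.lt_or_ge (k + 2) m with h1 | h1
      · exact hpk k h3 h1
      · rw [← card_eq_zero]
        have h2 := h.pen_f_le L (k := k) (by omega) (by omega)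
        rw [hU, card_empty] at e5
        rcases Nat.lt_or_ge 4 m with h4 | h4
        · have h5 := e5 h4
          rcases Nat.lt_or_ge k (m - 1) with h6 | h6
          · have : k = m - 2 := by omega
            subst this
            omega
          · have : k = m - 1 := by omega
            subst this
            omega
        · have h5 : m = 4 := by omega
          subst h5
          have h6 : k = 3 := by omega
          subst h6
          have h7 := e4 rfl
          have h8 : UE i C x 3 = ∅ := hU
          rw [h8, card_empty] at h7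
          omega
    have hz : dcv (if 0 + 2 < m then f (0 + 2) else p) (if 1 + 2 < m then f (1 + 2) else p) = 0 := by
      rw [if_pos (by omega), if_pos (by omega)]
      exact h.t0 L
    obtain ⟨g1, g2⟩ := hC.end_open H hir (by omega) hz
      (fun s h1 h2 => by
        rw [if_pos (by omega)]
        exact hpk' (s + 2) (by omega) (by omega))
      (fun w' hw' hb => by
        rw [if_neg (by omega)]
        have b1 := hb (m - 2) le_rfl
        rw [if_neg (by omega)] at b1
        have b2 := hb (m - 3) (by omega)
        rw [if_pos (by omega), show m - 3 + 2 = m - 1 by omega] at b2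
        rw [ucv_inter, card_eq_zero]
        by_contra hc
        obtain ⟨s, hs⟩ := nonempty_iff_ne_empty.2 hc
        rw [mem_inter, hup, mem_singleton] at hs
        have h3 : w' ∈ dc (x m) := by
          rw [← hs.1]
          exact mem_dc.2 (mem_uc.1 hs.2)
        rw [L.dm, hp1, mem_insert, mem_singleton] at h3
        rcases h3 with h3 | h3
        · exact b2 h3
        · exact b1 h3)
    have hg1 : ∀ k, 3 ≤ k → k + 1 < m → dcv (f k) (f (k + 1)) = if k % 2 = 0 then 0 else 2 := by
      intro k h3 hk
      have := g1 (k - 2) (by omega)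
      rw [if_pos (by omega), if_pos (by omega), show k - 2 + 2 = k by omega,
        show k - 2 + 1 + 2 = k + 1 by omega] at this
      rw [this]
      congr 1
      simp only [eq_iff_iff]
      omega
    have hgp : dcv (f (m - 1)) p = if m % 2 = 0 then 2 else 0 := by
      have := g1 (m - 3) (by omega)
      rw [if_pos (by omega), if_neg (by omega), show m - 3 + 2 = m - 1 by omega] at this
      rw [this]
      rcases Nat.mod_two_eq_zero_or_one m with h1 | h1
      · rw [if_neg (by omega), if_pos h1]
      · rw [if_pos (by omega), if_neg (by omega)]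
    have hB : ∀ l, 1 ≤ l → 2 * l + 2 < m → dc (f (2 * l + 1)) = dc (f (2 * l + 2)) ∧
        (dc (f (2 * l + 1))).card = 2 := by
      intro l h1 h2
      refine hblk (2 * l + 1) (by omega) (by omega) ?_
      rw [hg1 (2 * l + 1) (by omega) (by omega), if_neg (by omega)]
    refine ⟨a, L, h.twins L, h.twins_two L, a1, a2, a3, a4, a5, hue2, hB, ?_⟩
    rcases Nat.mod_two_eq_zero_or_one m with h1 | h1
    · left
      have h2 := g2 (by omega)
      have h3 : m = 4 := by omega
      subst h3
      refine ⟨rfl, p, hp1, ?_⟩
      have h4 : dcv (f 3) p = 2 := hgp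
      rw [dcv_inter] at h4
      have h5 := dc_le2 H (f 3)
      have h6 := dc_le2 H p
      have k1 : dc (f 3) ∩ dc p = dc (f 3) :=
        eq_of_subset_of_card_le inter_subset_left (by omega)
      have k2 : dc (f 3) ∩ dc p = dc p :=
        eq_of_subset_of_card_le inter_subset_right (by omega)
      refine ⟨by rw [← k2]; exact k1, by rw [← k2]; exact h4⟩
    · right
      right
      have h5 : 5 ≤ m := by omega
      refine ⟨(m - 3) / 2, by omega, by omega, p, hp1, hU, ?_, ?_⟩
      · -- the children of `p` in the part are private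
        intro z hz y hy hzy
        by_contra hne
        have hlz := lev_cov H (mem_dc.1 hz)
        have hly := lev_cov H (mem_dc.1 hzy)
        rcases uc_card_cases H (x := y) (by omega) with h6 | h6
        · -- a single element of the part is `p`
          obtain ⟨s, hs⟩ := card_eq_one.1 h6
          have hs' : s ∈ uc y := by rw [hs]; exact mem_singleton_self s
          have hls := lev_cov H (mem_uc.1 hs')
          obtain ⟨k, hk, rfl⟩ := h.D.W.surj s (h.D.W.hC.up hy (mem_uc.1 hs')) (by omega)
          have hyp : y ∈ pen (x k) := mem_pen.2 ⟨mem_uc.1 hs', h6⟩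
          rcases Nat.lt_or_ge k m with h7 | h7
          · have hyd : y ∈ dc (x k) := mem_dc.2 (mem_uc.1 hs')
            have h8 : pen (x k) = ∅ := by
              rcases Nat.lt_or_ge k 3 with h9 | h9
              · rcases (show k = 0 ∨ k = 1 ∨ k = 2 by omega) with rfl | rfl | rfl
                · exact h.D.pen0'
                · exact h.D.pen1'
                · exact h.D.W.pen0 2 le_rfl (by omega)
              · exact h.D.pen_k' h9 h7
            rw [h8] at hyp
            exact absurd hyp (notMem_empty y)
          · have : k = m := by omega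
            subst this
            rw [hp1, mem_singleton] at hyp
            exact hne hyp
        · -- a double
          obtain ⟨s, s1, s2⟩ := h.hT z (by omega) y (mem_uc.2 (mem_dc.1 hzy)) p
            (mem_uc.2 (mem_dc.1 hz)) hne h6
          rw [hup, mem_singleton] at s2
          subst s2
          have h7 : y ∈ dc (x m) := mem_dc.2 (mem_uc.1 s1)
          rw [L.dm, hp1, mem_insert, mem_singleton] at h7
          rcases h7 with h7 | h7
          · have h8 := hgp
            rw [if_neg (by omega), dcv_inter, card_eq_zero] at h8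
            have h9 : z ∈ dc (f (m - 1)) ∩ dc p := mem_inter.2 ⟨by rw [← h7]; exact hzy, hz⟩
            rw [h8] at h9
            exact absurd h9 (notMem_empty z)
          · exact hne h7
      · -- `p` has a join
        by_contra hc
        push Not at hc
        have h6 := hC.alt_two H hir (q := m - 2) le_rfl (by omega) (fun h7 => by omega)
          (fun _ w' hw' hb => ?_) g1
        · omega
        · rw [if_neg (by omega)]
          have b1 := hb (m - 2) le_rfl
          rw [if_neg (by omega)] at b1
          have b2 := hb (m - 3) (by omega)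
          rw [if_pos (by omega), show m - 3 + 2 = m - 1 by omega] at b2
          have c1 : ucv p w' = 0 := by
            rw [ucv_inter, card_eq_zero]
            by_contra hc
            obtain ⟨s, hs⟩ := nonempty_iff_ne_empty.2 hc
            rw [mem_inter, hup, mem_singleton] at hs
            have h3 : w' ∈ dc (x m) := by
              rw [← hs.1]
              exact mem_dc.2 (mem_uc.1 hs.2)
            rw [L.dm, hp1, mem_insert, mem_singleton] at h3
            rcases h3 with h3 | h3
            · exact b2 h3
            · exact b1 h3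
          have c2 : dcv p w' = 0 := by
            rw [dcv_inter, card_eq_zero]
            by_contra hc'
            obtain ⟨z, hz⟩ := nonempty_iff_ne_empty.2 hc'
            rw [mem_inter] at hz
            have h3 := StB_uc_pair H (mem_dc.1 hz.1) (mem_dc.1 hz.2) b1.symm
            have h4 := hc z hz.1
            rw [h3, card_pair b1.symm] at h4
            exact h4 rfl
          rw [Df_val H hlp b1.symm, c1, c2]
          norm_num

end CeH

end Pool.Agent.GaussPoset.Win.W4
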