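import Pool.Agent.W_448ce_h84.CeE
import Pool.Agent.W_448kf_h15.KfJ
import Pool.Agent.W_448wd_h84.WdO

/-!
MP_448cb3_co, G2, case B: the list in the frame of the rows of case B.  At the end of a row with the
letters C, O (an upper pendant) there is no lower pendant, if the other end is closed and there are at
least five sites.
-/

namespace Pool.Agent.GaussPoset.EK

set_option linter.unusedSectionVars false

open Finset Win St Polynomial Wd Win.W4
open Pool.Agent.GaussPoset.Win.SO (PN vp)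
open Pool.Agent.GaussPoset.Win.H2 (NoT)

universe u

variable {P : Type u} [Fintype P] [PartialOrder P] [DecidableEq P] {r i j : ℕ}

variable {m : ℕ} {x : ℕ → P} {c : ℕ → ℤ} {β : ℤ} {t : Tops P}

variable {K : Finset P} {psi : P → P} {lo hi : ℕ → ℕ} {e : ℕ → ℕ → P}

/-- right end with the letters C, O, left end closed, at least five elements: no pendant below the right
end -/
theorem NJ.pen_puR (h : NJ P r j) (C : Cp.Comp j (t : P) lo hi e) {n : ℕ} (hn : j = n + 2)
    (hb : lo (n + 2) + 4 ≤ hi (n + 2)) (h1 : lo (n + 2) = lo (n + 1) + 1)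
    (h2 : hi (n + 1) = hi n) (h3 : hi (n + 2) = hi (n + 1) + 1) :
    pen (e (n + 2) (hi (n + 2))) = ∅ := by
  subst hn
  have s1 := C.lo_step n (by omega)
  have s0 := C.lo_zero
  have s0' := C.hi_zero
  have hn0 : n ≠ 0 := by
    rintro rfl
    omega
  have hch := NJ.chain h (i := n) (by omega) le_rfl C (by omega)
  have hpR : Wd.pdR lo hi n := ⟨h2, h3, by omega⟩
  have hpL : ¬ Wd.pdL lo hi n := by
    rintro ⟨-, g2, -⟩
    omega
  rw [if_neg hpL, if_pos hpR, zero_add] at hch
  by_contra hc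
  have hpos : 0 < (pen (e (n + 2) (hi (n + 2)))).card := card_pos.2 (nonempty_iff_ne_empty.2 hc)
  have t4 := law_two4 h.g t.2 C (i := n) (by omega) (by omega) (by omega)
  have hqR := t4.2.1 hpR
  have hqL : ¬ Wd.puL lo hi n := fun g => hpL (t4.1.2 g)
  obtain ⟨q1, q2, q3, q4⟩ := hqR
  obtain ⟨k, rfl⟩ : ∃ k, n = k + 2 := ⟨n - 2, by omega⟩
  rw [show k + 2 - 1 = k + 1 by omega] at q2 q3
  rw [show k + 2 - 2 = k by omega] at q2
  have s2 := C.lo_step (k + 1) (by omega)
  have s3 := C.lo_step k (by omega)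
  rw [show k + 1 + 1 = k + 2 by omega] at s2
  rw [show k + 2 + 2 = k + 4 by omega, show k + 2 + 1 = k + 3 by omega] at *
  -- the second term of `fuw`
  have hf : 3 ≤ k + 2 ∧ hi k = hi (k - 1) := by
    unfold Wd.fuw at hch
    rw [show k + 2 - 2 = k by omega, show k + 2 - 3 = k - 1 by omega] at hch
    by_contra hcc
    rw [if_neg, if_neg] at hch
    · omega
    · rintro ⟨g1, g2, -⟩
      exact hcc ⟨g1, g2⟩
    · rintro ⟨g1, g2, g3 | ⟨-, g4⟩⟩
      · exact hqL g3
      · omega
  have t5 := law_two4 h.g t.2 C (i := k) (by omega) (by omega) (by omega)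
  have hpR' : Wd.pdR lo hi k := ⟨q2, by omega, by omega⟩
  obtain ⟨p1, p2, p3, p4⟩ := t5.2.1 hpR'
  omega

/-- left end with the letters C, O, right end closed, at least five elements: no pendant below the left
end -/
theorem NJ.pen_puL (h : NJ P r j) (C : Cp.Comp j (t : P) lo hi e) {n : ℕ} (hn : j = n + 2)
    (hb : lo (n + 2) + 4 ≤ hi (n + 2)) (h1 : hi (n + 2) = hi (n + 1))
    (h2 : lo (n + 1) = lo n + 1) (h3 : lo (n + 2) = lo (n + 1)) :
    pen (e (n + 2) (lo (n + 2))) = ∅ := by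
  subst hn
  have s1 := C.hi_step n (by omega)
  have s0 := C.lo_zero
  have s0' := C.hi_zero
  have hn0 : n ≠ 0 := by
    rintro rfl
    omega
  have hch := NJ.chain h (i := n) (by omega) le_rfl C (by omega)
  have hpL : Wd.pdL lo hi n := ⟨h2, h3, by omega⟩
  have hpR : ¬ Wd.pdR lo hi n := by
    rintro ⟨-, g2, -⟩
    omega
  rw [if_pos hpL, if_neg hpR, add_zero] at hch
  by_contra hc
  have hpos : 0 < (pen (e (n + 2) (lo (n + 2)))).card := card_pos.2 (nonempty_iff_ne_empty.2 hc)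
  have t4 := law_two4 h.g t.2 C (i := n) (by omega) (by omega) (by omega)
  have hqL := t4.1.1 hpL
  have hqR : ¬ Wd.puR lo hi n := fun g => hpR (t4.2.2 g)
  obtain ⟨q1, q2, q3, q4⟩ := hqL
  obtain ⟨k, rfl⟩ : ∃ k, n = k + 2 := ⟨n - 2, by omega⟩
  rw [show k + 2 - 1 = k + 1 by omega] at q2 q3
  rw [show k + 2 - 2 = k by omega] at q2
  have s2 := C.hi_step (k + 1) (by omega)
  have s3 := C.hi_step k (by omega)
  rw [show k + 1 + 1 = k + 2 by omega] at s2
  rw [show k + 2 + 2 = k + 4 by omega, show k + 2 + 1 = k + 3 by omega] at *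
  have hf : 3 ≤ k + 2 ∧ lo k = lo (k - 1) + 1 := by
    unfold Wd.fuw at hch
    rw [show k + 2 - 2 = k by omega, show k + 2 - 3 = k - 1 by omega] at hch
    by_contra hcc
    rw [if_neg, if_neg] at hch
    · omega
    · rintro ⟨g1, g2, g3 | ⟨-, g4⟩⟩
      · exact hqR g3
      · omega
    · rintro ⟨g1, g2, -⟩
      exact hcc ⟨g1, g2⟩
  have t5 := law_two4 h.g t.2 C (i := k) (by omega) (by omega) (by omega)
  have hpL' : Wd.pdL lo hi k := ⟨q2, by omega, by omega⟩
  obtain ⟨p1, p2, p3, p4⟩ := t5.1.1 hpL'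
  omega

/-- an upper pendant over the right end double and a closed left end exclude a pendant below the right
end, at least five sites -/
theorem NJ.ue_pen (h : NJ P r j) (hj : 2 ≤ j) (B : RowB P j t m x c β) (hm : 4 ≤ m)
    (hcl : (uc (x 0)).card = 2) (hp : (pen (x m)).Nonempty) :
    UE j (cext (j + 1) (topOf : P → Tops P) t) x (m - 1) = ∅ := by
  classical
  have H := h.g.H
  have W := NJ.prow h hj B (by omega)
  obtain ⟨lo, hi, e, C⟩ := Cp.comp_exists h.g.H t.2 h.g.hr h.g.good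
  obtain ⟨n, rfl⟩ : ∃ n, j = n + 2 := ⟨j - 2, by omega⟩
  obtain ⟨hlen, hor⟩ := B.orient h hj C
  have s1 := C.lo_step n (by omega)
  have s2 := C.lo_step (n + 1) (by omega)
  have s3 := C.hi_step n (by omega)
  have s4 := C.hi_step (n + 1) (by omega)
  have s5 := C.lo_le n (by omega)
  have s6 := C.lo_le (n + 1) (by omega)
  rw [show n + 1 + 1 = n + 2 by omega] at s2 s4
  have cov' : ∀ s a, lo (n + 2) ≤ s → s ≤ hi (n + 2) → lo (n + 1) ≤ a → a ≤ hi (n + 1) →
      (e (n + 2) s ⋖ e (n + 1) a ↔ a = s ∨ a + 1 = s) := fun s a => C.cov (n + 1) s a (by omega)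
  have dbl' : ∀ s, lo (n + 2) ≤ s → s ≤ hi (n + 2) →
      ((uc (e (n + 2) s)).card = 2 ↔ lo (n + 1) < s ∧ s ≤ hi (n + 1)) := fun s g1 g2 =>
    C.double_up H h.g.good t.2 (k := n + 1) (by omega) g1 g2
  by_contra hU
  obtain ⟨z, hz⟩ := nonempty_iff_ne_empty.2 hU
  obtain ⟨hzC, hzP, hzs⟩ := mem_UE.1 hz
  obtain ⟨-, u, -, -, -, -, -, hu⟩ := PN_dat H (C := cext (n + 2 + 1) (topOf : P → Tops P) t)
    (SO.mem_PN.2 ⟨hzC, Or.inr hzP⟩)
  rcases hu with ⟨g1, -⟩ | ⟨-, hlz, hlu, hdz, hsu, -⟩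
  · have := lev_PU hzP
    have := lev_PD g1
    omega
  have hux2 : x (m - 1) ⋖ u := by
    rw [← mem_dc, ← hsu, hzs]
    exact (W.mem_ed (by omega) (by omega)).2 (Or.inl rfl)
  have hux3 : x m ⋖ u := by
    rw [← mem_dc, ← hsu, hzs]
    exact (W.mem_ed (by omega) (by omega)).2 (Or.inr (by omega))
  have huz : u ⋖ z := by rw [← mem_dc, hdz]; exact mem_singleton_self u
  have hx2t : x m ≤ (t : P) := by
    rw [← B.row.kap m (by omega)]
    exact le_topOf (x m)
  have hut : u ≤ (t : P) := Cp.up_le H h.g.good t.2 hx2t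
    (by have := B.row.lev_x m (by omega); omega) hux3.le
  have hzt : z ≤ (t : P) := Cp.up_le H h.g.good t.2 hut (by omega) huz.le
  obtain ⟨a, a1, a2, a3⟩ := C.surj u hut (by omega)
  obtain ⟨b, b1, b2, b3⟩ := C.surj z hzt (by omega)
  have lu : lev u = n + 1 := by omega
  have lz : lev z = n := by omega
  rw [lu] at a1 a2 a3
  rw [lz] at b1 b2 b3
  subst a3
  subst b3
  have hzd := (C.single_down H (k := n) (by omega) b1 b2).1 (lev_PU hzP).2
  have hcz := (C.cov n a b (by omega) a1 a2 b1 b2).1 huz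
  rcases hor with hor | hor
  · -- the row of the strip
    have h0 := hor 0 (by omega)
    have h2 := hor (m - 1) (by omega)
    have h3 := hor m le_rfl
    rw [h0, dbl' _ (by omega) (by omega)] at hcl
    rw [h2] at hux2
    rw [h3] at hux3
    have c2 := (cov' _ a (by omega) (by omega) a1 a2).1 hux2
    have c3 := (cov' _ a (by omega) (by omega) a1 a2).1 hux3
    have := NJ.pen_puR h C rfl (by omega) (by omega) (by omega) (by omega)
    rw [h3, show lo (n + 2) + m = hi (n + 2) by omega, this] at hp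
    exact absurd hp Finset.not_nonempty_empty
  · -- the reversed row
    have h0 := hor 0 (by omega)
    have h2 := hor (m - 1) (by omega)
    have h3 := hor m le_rfl
    rw [h0, dbl' _ (by omega) (by omega)] at hcl
    rw [h2] at hux2
    rw [h3] at hux3
    have c2 := (cov' _ a (by omega) (by omega) a1 a2).1 hux2
    have c3 := (cov' _ a (by omega) (by omega) a1 a2).1 hux3
    have := NJ.pen_puL h C rfl (by omega) (by omega) (by omega) (by omega)
    rw [h3, show hi (n + 2) - m = lo (n + 2) by omega, this] at hp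
    exact absurd hp Finset.not_nonempty_empty

/-- an element all of whose covers are in a part is in the part -/
lemma cext_cl {κ : P → Tops P} {g : P} {l : ℕ} (hl : lev g = l + 1) (_hg : (uc g).Nonempty)
    (h : ∀ s ∈ uc g, s ∈ cext l κ t) : g ∈ cext l κ t := by
  rw [mem_cext]
  intro y hy hly
  have hlt : g < y := lt_of_le_of_ne hy (by rintro rfl; omega)
  obtain ⟨s, hs, hs2⟩ := Hul.exists_cov hlt
  exact mem_cext.1 (h s (mem_uc.2 hs)) y hs2 hly

/-- THE LIST in the frame of the rows of case B: the closed pattern [DL] at the left end, at least five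
sites, `w3 = 0`, `F = 0` -/
theorem NJ.list (h : NJ P r j) (hj : 2 ≤ j) (R : Red P j K psi) (B : RowB P j t m x c β)
    (hm : 4 ≤ m) (hβ : β = 0) (c0 : c 0 = 1) (c1 : c 1 = -1) (c2 : ∀ k, 2 ≤ k → k < m → c k = 0)
    (hw3 : I2.w3 (I2.bb j (j + 1) (topOf : P → Tops P) t)
      (I2.VV j (j + 1) (topOf : P → Tops P) t) = 0) (hcl : (uc (x 0)).card = 2)
    (hF : Fn j (cext (j + 1) (topOf : P → Tops P) t) = 0) (hT : NoT P (j + 2)) :
    ∃ w v, CeH r j K psi (cext (j + 1) (topOf : P → Tops P) t) w v m x ∧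
      ∃ y0 f a, LOut j (cext (j + 1) (topOf : P → Tops P) t) w y0 m x f a := by
  obtain ⟨w, v, D⟩ := NJ.dlr h hj R B (by omega) hβ c0 c1 c2 hw3
  have Q : CeH r j K psi (cext (j + 1) (topOf : P → Tops P) t) w v m x := by
    refine ⟨D, hm, hcl, hF, hT, fun g hg hs => ?_, fun hp => NJ.ue_pen h hj B hm hcl hp⟩
    exact cext_cl (by omega) (uc_nonempty h.g.H (by omega)) hs
  obtain ⟨y0, f, L⟩ := D.lrow hm
  obtain ⟨a, ha⟩ := Q.list L
  exact ⟨w, v, Q, y0, f, a, ha⟩

end Pool.Agent.GaussPoset.EK
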