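import Pool.Agent.W_448ce_h84.CeF
import Pool.Agent.W_448h2_h63.HG

/-!
MP_448cb3_co, G2, case B: the parts of the list have the form `H2.KP` of block (H).
-/

namespace Pool.Agent.GaussPoset.Win.W4

set_option linter.unusedSectionVars false

open Finset I2
open Pool.Agent.GaussPoset.Mp (dcv_inter ucv_inter two_covers dc_le2 com_add com_one Chn Df_val)
open Pool.Agent.GaussPoset.Win.H2 (NoT KP Bd K_lev)

universe u

variable {P : Type u} [Fintype P] [PartialOrder P] [DecidableEq P] {r i : ℕ}
variable {psi : P → P} {C K : Finset P} {w v : P} {m : ℕ} {x : ℕ → P}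
variable {y0 : P} {f : ℕ → P} {a : P}

namespace LOut

variable (h : CeH r i K psi C w v m x) (O : LOut i C w y0 m x f a)
include h O

lemma da_pen : dc a = pen a := by
  have h1 : pen a ⊆ dc a := fun z hz => mem_dc.2 (mem_pen.1 hz).1
  exact (eq_of_subset_of_card_le h1 (by rw [O.pa]; exact dc_card_le h.D.W.H a)).symm

lemma xne {k l : ℕ} (hk : k ≤ m) (hl : l ≤ m) (hkl : k ≠ l) : x k ≠ x l := h.D.W.ne hk hl hkl

/-- the doubles of the row are different from the twins -/
lemma f_ne {k : ℕ} (h2 : 2 ≤ k) (hk : k < m) : f k ≠ w ∧ f k ≠ y0 := by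
  have hm := h.hm4
  have key : ∀ y, uc y = {x 0, x 1} → f k ≠ y := by
    intro y hy h1
    have h3 := O.L.uf k h2 hk
    rw [h1, hy] at h3
    have h4 : x 0 ∈ ed x k := by
      show x 0 ∈ ({x k, x (k + 1)} : Finset P)
      rw [← h3]
      exact mem_insert_self _ _
    rw [h.D.W.mem_ed (by omega) hk] at h4
    omega
  exact ⟨key w O.L.uw, key y0 O.L.uy⟩

lemma f_inj {k l : ℕ} (h2 : 2 ≤ k) (hk : k < m) (h3 : 2 ≤ l) (hl : l < m) (hkl : k ≠ l) :
    f k ≠ f l := fun h4 => hkl (h.f_inj O.L h2 hk h3 hl h4)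

/-- the block over `x (2 l + 2)` -/
theorem bd {l : ℕ} (h1 : 1 ≤ l) (h2 : 2 * l + 2 < m) :
    Bd y0 w (f 2) (x 0) (x 1) (x 2) (f (2 * l + 1)) (f (2 * l + 2)) (x (2 * l + 1))
      (x (2 * l + 2)) (x (2 * l + 3)) := by
  have e1 := O.f_ne h (k := 2 * l + 1) (by omega) (by omega)
  have e2 := O.f_ne h (k := 2 * l + 2) (by omega) (by omega)
  refine ⟨O.f_inj h (by omega) (by omega) (by omega) (by omega) (by omega),
    O.L.uf _ (by omega) (by omega), O.L.uf _ (by omega) (by omega), ?_,
    O.xne h (by omega) (by omega) (by omega), O.xne h (by omega) (by omega) (by omega),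
    O.xne h (by omega) (by omega) (by omega), O.xne h (by omega) (by omega) (by omega),
    O.xne h (by omega) (by omega) (by omega), O.xne h (by omega) (by omega) (by omega),
    e1.2, e1.1, O.f_inj h (by omega) (by omega) le_rfl (by omega) (by omega),
    e2.2, e2.1, O.f_inj h (by omega) (by omega) le_rfl (by omega) (by omega)⟩
  have := O.L.dk (2 * l + 2) (by omega) (by omega)
  rwa [show 2 * l + 2 - 1 = 2 * l + 1 by omega] at this

/-- the covers of a child of the part: over the twins, over a single element, over a block, or it is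
the private child `a` -/
theorem kids {z : P} (hz : lev z = i + 2) (hzC : ∃ s ∈ uc z, s ∈ C) :
    w ∈ uc z ∨ (∃ s ∈ uc z, (uc s).card = 1) ∨
      (∃ l, 1 ≤ l ∧ 2 * l + 2 < m ∧ uc z = {f (2 * l + 1), f (2 * l + 2)}) ∨ z = a := by
  classical
  have H := h.D.W.H
  have hm := h.hm4
  obtain ⟨s, hs, hsC⟩ := hzC
  have hls := lev_uc H hs
  have hzs := mem_dc.2 (mem_uc.1 hs)
  rcases uc_card_cases H (x := s) (by omega) with h1 | h1
  · exact Or.inr (Or.inl ⟨s, hs, h1⟩)
  · obtain ⟨k, hk, hu⟩ := h.D.W.lo_ed h.D.hd hsC (by omega) h1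
    have hsx : s ∈ dc (x k) := by
      rw [mem_dc, ← mem_uc, hu]
      exact (h.D.W.mem_ed (by omega) hk).2 (Or.inl rfl)
    rcases Nat.eq_zero_or_pos k with h2 | h2
    · subst h2
      rw [O.L.d0, mem_insert, mem_singleton] at hsx
      left
      rcases hsx with rfl | rfl
      · exact hs
      · rw [← mem_dc.trans mem_uc.symm, O.tw]
        exact hzs
    · have hk1 : k ≠ 1 := by
        rintro rfl
        exact h.D.no_f1 s hu
      have hsf : s = f k := by
        have h3 : s ∈ dc (x (k + 1)) := by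
          rw [mem_dc, ← mem_uc, hu]
          exact (h.D.W.mem_ed (by omega) hk).2 (Or.inr rfl)
        rcases Nat.lt_or_ge 2 k with h4 | h4
        · rw [O.L.dk k h4 hk, mem_insert, mem_singleton] at hsx
          rcases hsx with h5 | h5
          · exfalso
            rw [h5, O.L.uf (k - 1) (by omega) (by omega)] at hu
            have := h.D.W.ed_inj (k := k - 1) (l := k) (by omega) hk hu
            omega
          · exact h5
        · have h5 : k = 2 := by omega
          subst h5
          rw [O.L.d2, mem_singleton] at hsx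
          exact hsx
      subst hsf
      right
      rcases Nat.lt_or_ge 2 k with h4 | h4
      swap
      · have h5 : k = 2 := by omega
        subst h5
        rw [O.da, mem_singleton] at hzs
        exact Or.inr (Or.inr hzs)
      -- the other member of the block
      have key : ∀ l, 1 ≤ l → 2 * l + 2 < m → (k = 2 * l + 1 ∨ k = 2 * l + 2) →
          uc z = {f (2 * l + 1), f (2 * l + 2)} := by
        intro l g1 g2 g3
        have hne := O.f_inj h (k := 2 * l + 1) (l := 2 * l + 2) (by omega) (by omega) (by omega)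
          (by omega) (by omega)
        have hb := (O.blk l g1 g2).1
        rcases g3 with g3 | g3
        · subst g3
          exact StB_uc_pair H (mem_dc.1 hzs) (mem_dc.1 (hb ▸ hzs)) hne
        · subst g3
          exact StB_uc_pair H (mem_dc.1 (hb.symm ▸ hzs)) (mem_dc.1 hzs) hne
      by_cases hk2 : k = 3 ∧ m = 4
      · left
        obtain ⟨rfl, rfl⟩ := hk2
        rcases O.fin with ⟨-, p, g1, g2, g3⟩ | ⟨g, -⟩ | ⟨k', g, g', -⟩
        · have g4 : p ∈ pen (x 4) := by rw [g1]; exact mem_singleton_self p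
          refine ⟨p, mem_uc.2 (mem_dc.1 (g2.symm ▸ hzs)), (mem_pen.1 g4).2⟩
        · omega
        · omega
      · right
        left
        have hmo : m = 4 ∨ m % 2 = 1 := by
          rcases O.fin with ⟨g, -⟩ | ⟨g, -⟩ | ⟨k', g, g', -⟩
          · exact Or.inl g
          · right; omega
          · right; omega
        rcases Nat.mod_two_eq_zero_or_one k with g1 | g1
        · exact ⟨(k - 2) / 2, by omega, by omega, key _ (by omega) (by omega) (by omega)⟩
        · exact ⟨(k - 1) / 2, by omega, by omega, key _ (by omega) (by omega) (by omega)⟩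

end LOut

variable {ι : Type*} [DecidableEq ι] {κ : P → ι} {b : ι}

/-- THE LIST GIVES `KP` -/
theorem LOut.kp (hκ : Split (i + 1) κ) (hKs : K ⊆ dbL P i ∪ dbU P i)
    (h : CeH r i K psi (cext (i + 1) κ b) w v m x)
    (O : LOut i (cext (i + 1) κ b) w y0 m x f a) :
    H2.KP i κ K b y0 w v (f 2) (x 0) (x 1) (x 2) := by
  classical
  have H := h.D.W.H
  have hm := h.hm4
  refine ⟨?_, O.L.lw, h.D.Q.lv0, O.L.ne0, O.L.uy, O.L.uw, h.D.hv, ?_, ?_, O.L.d2,
    O.xne h (by omega) (by omega) (by omega), O.xne h (by omega) (by omega) (by omega),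
    O.xne h (by omega) (by omega) (by omega), ?_, ?_⟩
  · intro k
    constructor
    · rintro ⟨hk, hkb⟩
      exact (h.D.Q.hK k (mem_cext_of_le hκ (K_lev hKs hk) hkb)).1 hk
    · have l1 := O.L.lw
      have l2 := h.D.Q.lv0
      rintro (rfl | rfl)
      · exact ⟨h.D.Q.wK, mem_cext.1 h.D.Q.wC k le_rfl (by omega)⟩
      · exact ⟨h.D.Q.vK, mem_cext.1 h.D.Q.vC k le_rfl (by omega)⟩
  · rw [O.L.d0, pair_comm]
  · rw [O.L.d1, pair_comm]
  · intro z hz
    rw [O.tw] at hz
    exact mem_uc.2 (mem_dc.1 hz)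
  · rintro z hz hzC ⟨t, ht, htz⟩
    obtain ⟨s, hs⟩ := uc_nonempty H (x := z) (by omega)
    have hsC : s ∈ cext (i + 1) κ b := h.D.W.hC.up hzC (mem_uc.1 hs)
    rcases O.kids h hz ⟨s, hs, hsC⟩ with h1 | h1 | ⟨l, h1, h2, h3⟩ | h1
    · exact Or.inl h1
    · exact Or.inr (Or.inl h1)
    · exact Or.inr (Or.inr ⟨_, _, _, _, _, O.bd h h1 h2, h3⟩)
    · exfalso
      subst h1
      have h4 : t ∈ pen z := by rw [← O.da_pen h]; exact mem_dc.2 htz
      have h5 := uc_pen h4
      apply ht
      unfold cuni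
      rw [mem_biUnion]
      have h6 : t ∈ cext (i + 1) κ b := h.D.W.cl t z hzC h5
      refine ⟨b, ?_, h6⟩
      rw [mem_image]
      exact ⟨s, mem_univ _, mem_cext.1 hsC s le_rfl (by have := lev_uc H hs; omega)⟩

end Pool.Agent.GaussPoset.Win.W4
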